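import Pool.Agent.Lib.D2.Ctx0
import Pool.Agent.Lib.TA.CentreA

/-!
# PROJECT ALL, block Z, row Z1 (first part)

`R` is a normal local ring with field of fractions `F`, its maximal ideal consists of the elements
of positive value, `N/F` is a finite Galois extension.  We study the decomposition group `DP` of
the centre of `v` on the integral closure `intN` of `R` in `N`.
-/

set_option autoImplicit false

open Polynomial

namespace Pool.Agent.ALLZ

open Pool.Agent.H15JM (RVal)
open Pool.Agent.LU1 (VPos locv FracIs fixO mem_fixO val_add_vpos)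
open Pool.Agent.D2 (Ctx0)

universe u

variable {k Ω : Type u} [Field k] [Field Ω] [Algebra k Ω] {v : RVal Ω}

/-- A normal local ring `R` with field of fractions `F` whose maximal ideal consists of the
elements of positive value. -/
structure NRing (v : RVal Ω) (F : IntermediateField k Ω) (R : Subalgebra k Ω) : Prop where
  frac : FracIs R F
  nonneg : ∀ f ∈ R, v.Ge 0 f
  loc : ∀ f ∈ R, f ≠ 0 → v f = 0 → f⁻¹ ∈ R
  normal : ∀ f ∈ F, IsIntegral R f → f ∈ R

/-- The integral closure of `R` in `N`. -/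
def intN (R : Subalgebra k Ω) {F : IntermediateField k Ω} (N : IntermediateField F Ω) :
    Subalgebra k Ω where
  carrier := {g | g ∈ N ∧ IsIntegral R g}
  mul_mem' := fun ha hb => ⟨mul_mem ha.1 hb.1, ha.2.mul hb.2⟩
  add_mem' := fun ha hb => ⟨add_mem ha.1 hb.1, ha.2.add hb.2⟩
  algebraMap_mem' := fun c =>
    ⟨N.algebraMap_mem ⟨algebraMap k Ω c, F.algebraMap_mem c⟩,
      isIntegral_algebraMap (R := R) (A := Ω) (x := algebraMap k R c)⟩

theorem mem_intN {R : Subalgebra k Ω} {F : IntermediateField k Ω} {N : IntermediateField F Ω}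
    {g : Ω} : g ∈ intN R N ↔ g ∈ N ∧ IsIntegral R g := Iff.rfl

/-- The localisation of the integral closure at the centre of `v`. -/
def CN (v : RVal Ω) (R : Subalgebra k Ω) {F : IntermediateField k Ω}
    (N : IntermediateField F Ω) : Subalgebra k Ω := locv v (intN R N)

variable {R : Subalgebra k Ω} {F : IntermediateField k Ω} {N : IntermediateField F Ω}

theorem isIntegral_of_mem {f : Ω} (hf : f ∈ R) : IsIntegral R f :=
  isIntegral_algebraMap (R := R) (A := Ω) (x := ⟨f, hf⟩)

theorem le_intN (hR : ∀ f ∈ R, f ∈ F) : R ≤ intN R N := fun f hf =>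
  ⟨N.algebraMap_mem ⟨f, hR f hf⟩, isIntegral_of_mem hf⟩

theorem CN_le (g : Ω) (hg : g ∈ CN v R N) : g ∈ N := by
  obtain ⟨a, ha, b, hb, -, -, rfl⟩ := hg
  exact div_mem ha.1 hb.1

/-- Automorphisms of `N/F` preserve integral elements. -/
theorem int_map (hR : ∀ f ∈ R, f ∈ F) (σ : N ≃ₐ[F] N) {n : N} (h : IsIntegral R (n : Ω)) :
    IsIntegral R ((σ n : N) : Ω) := by
  obtain ⟨P, hP, hn⟩ := h
  refine ⟨P, hP, ?_⟩
  let ι : R →+* F :=
    { toFun := fun f => ⟨f, hR f f.2⟩
      map_one' := rfl
      map_mul' := fun _ _ => rfl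
      map_zero' := rfl
      map_add' := fun _ _ => rfl }
  have e : ∀ m : N, eval₂ (algebraMap R Ω) (m : Ω) P =
      ((eval₂ ((algebraMap F N).comp ι) m P : N) : Ω) := by
    intro m
    have := hom_eval₂ P ((algebraMap F N).comp ι) (algebraMap N Ω) m
    rw [show ((eval₂ ((algebraMap F N).comp ι) m P : N) : Ω) =
      algebraMap N Ω (eval₂ ((algebraMap F N).comp ι) m P) from rfl, this]
    rfl
  rw [e] at hn ⊢
  have h0 : eval₂ ((algebraMap F N).comp ι) n P = 0 := by
    apply Subtype.ext
    exact hn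
  have h1 := hom_eval₂ P ((algebraMap F N).comp ι) (σ : N →+* N) n
  have h2 : (σ : N →+* N).comp ((algebraMap F N).comp ι) = (algebraMap F N).comp ι := by
    ext f
    change ((σ (algebraMap F N (ι f)) : N) : Ω) = _
    rw [AlgEquiv.commutes]
    rfl
  rw [h2, h0, _root_.map_zero] at h1
  have h3 : eval₂ ((algebraMap F N).comp ι) (σ n) P = 0 := h1.symm
  rw [h3]
  rfl

theorem int_ge (hR : ∀ f ∈ R, v.Ge 0 f) {g : Ω} (hg : IsIntegral R g) : v.Ge 0 g :=
  TA.ge_of_isIntegral (O := R) (fun a => hR a a.2) hg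

/-- The decomposition group of the centre of `v` on `intN R N`. -/
def DP (v : RVal Ω) (R : Subalgebra k Ω) (N : IntermediateField F Ω) (hR : ∀ f ∈ R, f ∈ F) :
    Subgroup (N ≃ₐ[F] N) where
  carrier := {σ | ∀ n : N, IsIntegral R (n : Ω) → (VPos v (n : Ω) ↔ VPos v ((σ n : N) : Ω))}
  mul_mem' := by
    intro a b ha hb n hn
    rw [hb n hn, ha (b n) (int_map hR b hn), AlgEquiv.mul_apply]
  one_mem' := fun n _ => Iff.rfl
  inv_mem' := by
    intro a ha n hn
    have h := ha (a⁻¹ n) (int_map hR a⁻¹ hn)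
    rw [← AlgEquiv.mul_apply, mul_inv_cancel, AlgEquiv.one_apply] at h
    exact h.symm

theorem mem_DP {hR : ∀ f ∈ R, f ∈ F} {σ : N ≃ₐ[F] N} : σ ∈ DP v R N hR ↔
    ∀ n : N, IsIntegral R (n : Ω) → (VPos v (n : Ω) ↔ VPos v ((σ n : N) : Ω)) := Iff.rfl

/-- One direction is enough. -/
theorem mem_DP_of [FiniteDimensional F N] {hR : ∀ f ∈ R, f ∈ F} {σ : N ≃ₐ[F] N}
    (h : ∀ n : N, IsIntegral R (n : Ω) → VPos v (n : Ω) → VPos v ((σ n : N) : Ω)) :
    σ ∈ DP v R N hR := by
  intro n hn
  refine ⟨h n hn, fun h1 => ?_⟩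
  have hfin : Finite (N ≃ₐ[F] N) := inferInstance
  have h2 : ∀ m : ℕ, ∀ n : N, IsIntegral R (n : Ω) → VPos v (n : Ω) →
      VPos v (((σ ^ m) n : N) : Ω) := by
    intro m
    induction m with
    | zero => intro n _ h; simpa using h
    | succ m ih =>
      intro n hn h3
      rw [pow_succ, AlgEquiv.mul_apply]
      exact ih _ (int_map hR σ hn) (h n hn h3)
  have h3 := h2 (orderOf σ - 1) (σ n) (int_map hR σ hn) h1
  rw [← AlgEquiv.mul_apply, ← pow_succ, Nat.sub_add_cancel (orderOf_pos σ), pow_orderOf_eq_one,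
    AlgEquiv.one_apply] at h3
  exact h3

/-- An integral element which is not in the centre has value `0`. -/
theorem val_eq_zero (hR : ∀ f ∈ R, v.Ge 0 f) {g : Ω} (hg : IsIntegral R g) (h : ¬ VPos v g) :
    g ≠ 0 ∧ v g = 0 := by
  unfold VPos at h
  push Not at h
  exact ⟨h.1, le_antisymm h.2 (int_ge hR hg h.1)⟩

theorem not_vpos {g : Ω} (h0 : g ≠ 0) (h1 : v g = 0) : ¬ VPos v g := fun h => by
  have := h h0
  rw [h1] at this
  exact lt_irrefl _ this

/-- Elements of the decomposition group preserve integral elements of value `0`. -/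
theorem val_map {hR : ∀ f ∈ R, f ∈ F} (hv : ∀ f ∈ R, v.Ge 0 f) {σ : N ≃ₐ[F] N}
    (hσ : σ ∈ DP v R N hR) {n : N} (hn : IsIntegral R (n : Ω)) (h0 : (n : Ω) ≠ 0)
    (h1 : v (n : Ω) = 0) : ((σ n : N) : Ω) ≠ 0 ∧ v ((σ n : N) : Ω) = 0 :=
  val_eq_zero hv (int_map hR σ hn) fun h => not_vpos h0 h1 ((hσ n hn).2 h)

/-! ### polynomials with integral coefficients -/

/-- All coefficients are integral. -/
def PI (R : Subalgebra k Ω) (P : N[X]) : Prop := ∀ i, IsIntegral R ((P.coeff i : N) : Ω)

theorem PI.mul {P Q : N[X]} (hP : PI R P) (hQ : PI R Q) : PI R (P * Q) := by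
  intro i
  rw [coeff_mul]
  push_cast
  exact IsIntegral.sum _ fun x _ => (hP _).mul (hQ _)

theorem PI.one : PI R (1 : N[X]) := by
  intro i
  rw [coeff_one]
  split_ifs
  · simpa using isIntegral_one
  · simpa using isIntegral_zero

theorem PI.C {n : N} (hn : IsIntegral R (n : Ω)) : PI R (C n : N[X]) := by
  intro i
  rw [coeff_C]
  split_ifs
  · exact hn
  · simpa using isIntegral_zero

theorem PI.X_sub_C {n : N} (hn : IsIntegral R (n : Ω)) : PI R (X - Polynomial.C n : N[X]) := by
  intro i
  rw [coeff_sub]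
  push_cast
  refine IsIntegral.sub ?_ (PI.C hn i)
  rw [coeff_X]
  split_ifs
  · simpa using isIntegral_one
  · simpa using isIntegral_zero

theorem PI.prod {ι : Type*} (s : Finset ι) (P : ι → N[X]) (h : ∀ i ∈ s, PI R (P i)) :
    PI R (∏ i ∈ s, P i) := by
  classical
  induction s using Finset.induction_on with
  | empty => simpa using PI.one
  | insert i s hi ih =>
    rw [Finset.prod_insert hi]
    exact (h i (Finset.mem_insert_self i s)).mul
      (ih fun j hj => h j (Finset.mem_insert_of_mem hj))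

theorem PI.sum {ι : Type*} (s : Finset ι) (P : ι → N[X]) (h : ∀ i ∈ s, PI R (P i)) :
    PI R (∑ i ∈ s, P i) := by
  intro j
  rw [finsetSum_coeff]
  push_cast
  exact IsIntegral.sum _ fun i hi => h i hi j

/-- The coefficients of an invariant polynomial with integral coefficients are in `R`. -/
theorem PI.coeff_mem [FiniteDimensional F N] [IsGalois F N] (hR : NRing v F R) {P : N[X]}
    (hP : PI R P) (hfix : ∀ σ : N ≃ₐ[F] N, P.map (σ : N →+* N) = P) (i : ℕ) :
    ((P.coeff i : N) : Ω) ∈ R := by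
  obtain ⟨f, hf⟩ := (IsGalois.mem_range_algebraMap_iff_fixed (F := F) (P.coeff i)).2 fun σ => by
    have h1 := congrArg (fun Q => Q.coeff i) (hfix σ)
    rw [Polynomial.coeff_map] at h1
    exact h1
  have h2 : ((P.coeff i : N) : Ω) = (f : Ω) := by rw [← hf]; rfl
  rw [h2]
  exact hR.normal _ f.2 (by rw [← h2]; exact hP i)

/-- If all conjugates are in the centre, some power is in `m_R` times the integral closure. -/
theorem pow_mem_of_all [FiniteDimensional F N] [IsGalois F N] (hR : NRing v F R) {n : N}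
    (hn : IsIntegral R (n : Ω)) (h : ∀ σ : N ≃ₐ[F] N, VPos v ((σ n : N) : Ω)) :
    ∃ d : ℕ, 0 < d ∧ ∃ c : ℕ → Ω, (∀ i, c i ∈ R ∧ VPos v (c i)) ∧
      (n : Ω) ^ d = ∑ i ∈ Finset.range d, c i * (n : Ω) ^ i := by
  classical
  have hfin : Fintype (N ≃ₐ[F] N) := Fintype.ofFinite _
  set P : N[X] := ∏ σ : N ≃ₐ[F] N, (X - C (σ n)) with hP
  have hmon : P.Monic := monic_prod_of_monic _ _ fun σ _ => monic_X_sub_C _
  have hPI : PI R P := PI.prod _ _ fun σ _ => PI.X_sub_C (int_map hR.frac.1 σ hn)
  have hfix : ∀ σ : N ≃ₐ[F] N, P.map (σ : N →+* N) = P := by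
    intro σ
    rw [hP, Polynomial.map_prod]
    refine Fintype.prod_equiv (Equiv.mulLeft σ) _ _ fun τ => ?_
    simp
  have hdeg : P.natDegree = Fintype.card (N ≃ₐ[F] N) := by
    rw [hP, natDegree_prod_of_monic _ _ fun σ _ => monic_X_sub_C _]
    simp
  have hd : 0 < P.natDegree := by rw [hdeg]; exact Fintype.card_pos
  have heval : P.eval n = 0 := by
    rw [hP, eval_prod]
    refine Finset.prod_eq_zero (Finset.mem_univ (1 : N ≃ₐ[F] N)) ?_
    simp
  -- the lower coefficients have positive value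
  have hpos : ∀ i, i < P.natDegree → VPos v ((P.coeff i : N) : Ω) := by
    -- modulo the elements of positive value every factor is `X`
    have key : ∀ s : Finset (N ≃ₐ[F] N), ∀ i, i < s.card →
        VPos v (((∏ σ ∈ s, (X - C (σ n)) : N[X]).coeff i : N) : Ω) := by
      intro s
      induction s using Finset.induction_on with
      | empty => intro i hi; simp at hi
      | insert σ s hσ ih =>
        intro i hi
        rw [Finset.prod_insert hσ, sub_mul, coeff_sub]
        push_cast
        refine VPos.sub ?_ ?_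
        · cases i with
          | zero => simpa using VPos.zero
          | succ i =>
            rw [coeff_X_mul]
            refine ih i ?_
            rw [Finset.card_insert_of_notMem hσ] at hi
            omega
        · rw [coeff_C_mul]
          push_cast
          refine VPos.mul (h σ) ?_
          exact int_ge hR.nonneg (PI.prod s _ (fun τ _ =>
            PI.X_sub_C (int_map hR.frac.1 τ hn)) i)
    intro i hi
    refine key Finset.univ i ?_
    rw [hdeg] at hi
    exact hi
  refine ⟨P.natDegree, hd, fun i => if i < P.natDegree then -((P.coeff i : N) : Ω) else 0,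
    fun i => ?_, ?_⟩
  · dsimp only
    by_cases hi : i < P.natDegree
    · rw [if_pos hi]
      exact ⟨neg_mem (hPI.coeff_mem hR hfix i), (hpos i hi).neg⟩
    · rw [if_neg hi]
      exact ⟨zero_mem _, VPos.zero⟩
  · have h1 : (0 : N) = n ^ P.natDegree +
        ∑ i ∈ Finset.range P.natDegree, P.coeff i * n ^ i := by
      rw [← heval, eval_eq_sum_range, Finset.sum_range_succ, hmon.coeff_natDegree, one_mul,
        add_comm]
    have h2 : n ^ P.natDegree = -∑ i ∈ Finset.range P.natDegree, P.coeff i * n ^ i := by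
      rw [eq_neg_iff_add_eq_zero]
      exact h1.symm
    have h3 := congrArg (fun x : N => (x : Ω)) h2
    push_cast at h3
    rw [h3, ← Finset.sum_neg_distrib]
    refine Finset.sum_congr rfl fun i hi => ?_
    dsimp only
    rw [if_pos (Finset.mem_range.1 hi)]
    ring

end Pool.Agent.ALLZ
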