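import Pool.Agent.Lib.ALL6_h36.ET

/-!
# PROJECT ALL, block Z: `p`-coordinates by the trace formula (abstract form)

`t = ∑ a i ⊗ b i` a separability element of `E / F` with components in a ring `C` of fractions of
the integral closure of the integrally closed ring `S ⊂ F` in `E`.  Every element of `C` is, up to
a `p`-th power of a unit of `C`, a combination of the `a i` with coefficients in `S`.
-/

set_option autoImplicit false

namespace Pool.Agent.ALL6

variable {F E : Type*} [Field F] [Field E] [Algebra F E] {ι : Type*} [Fintype ι] {a b : ι → E}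

/-- A property of elements of `C` which is stable under sums and multiplication by `p`-th powers
of elements of `C` and holds for the `a i * s`, `s ∈ S`, holds for all elements of `C`. -/
theorem Sep.coord [FiniteDimensional F E] [Algebra.IsSeparable F E] (h : Sep F E a b)
    (p : ℕ) (hp : 0 < p) (S : Subring F) (hS : ∀ f : F, IsIntegral S f → f ∈ S)
    (C : Subring E) (hC1 : ∀ x : E, IsIntegral S x → x ∈ C)
    (hC2 : ∀ x ∈ C, ∃ s y : E, IsIntegral S s ∧ IsIntegral S y ∧ s ≠ 0 ∧ s⁻¹ ∈ C ∧ x = y / s)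
    (hb : ∀ i, b i ∈ C) (P : E → Prop) (P0 : P 0) (Padd : ∀ x y, P x → P y → P (x + y))
    (Pmul : ∀ x y, P x → y ∈ C → P (x * y ^ p)) (Pa : ∀ i, ∀ s ∈ S, P (a i * algebraMap F E s)) :
    ∀ c ∈ C, P c := by
  classical
  have Psum : ∀ (s : Finset ι) (f : ι → E), (∀ i ∈ s, P (f i)) → P (∑ i ∈ s, f i) := by
    intro s f hf
    induction s using Finset.induction_on with
    | empty => simpa using P0
    | insert i s hi ih =>
      rw [Finset.sum_insert hi]
      exact Padd _ _ (hf i (Finset.mem_insert_self _ _))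
        (ih fun j hj => hf j (Finset.mem_insert_of_mem hj))
  -- clear the denominators of the `b i`
  choose! s y hs hy hs0 hsi hxy using hC2
  let s₀ : E := ∏ i, s (b i)
  have hs₀0 : s₀ ≠ 0 := Finset.prod_ne_zero_iff.2 fun i _ => hs0 _ (hb i)
  have hs₀i : s₀⁻¹ ∈ C := by
    rw [← Finset.prod_inv_distrib]
    exact Subring.prod_mem _ fun i _ => hsi _ (hb i)
  have hs₀int : IsIntegral S s₀ := IsIntegral.prod _ fun j _ => hs _ (hb j)
  have hint : ∀ i, IsIntegral S (s₀ * b i) := by
    intro i
    have h1 : s₀ * b i = (∏ j ∈ Finset.univ.erase i, s (b j)) * y (b i) := by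
      have h2 : b i = y (b i) / s (b i) := hxy _ (hb i)
      have h3 : s₀ = (∏ j ∈ Finset.univ.erase i, s (b j)) * s (b i) := by
        rw [mul_comm]
        exact (Finset.mul_prod_erase _ _ (Finset.mem_univ i)).symm
      calc s₀ * b i = (∏ j ∈ Finset.univ.erase i, s (b j)) * s (b i) * (y (b i) / s (b i)) := by
            rw [← h3, ← h2]
        _ = _ := by
            have := hs0 _ (hb i)
            field_simp
    rw [h1]
    exact (IsIntegral.prod _ fun j _ => hs _ (hb j)).mul (hy _ (hb i))
  have hintE : ∀ x : E, IsIntegral S x → Algebra.trace F E x ∈ S := by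
    intro x hx
    apply hS
    exact Algebra.isIntegral_trace hx
  have hpow : ∀ z : E, z ^ p = z ^ (p - 1) * z := by
    intro z
    rw [← pow_succ]
    congr 1
    omega
  -- integral elements
  have key : ∀ c : E, IsIntegral S c → P c := by
    intro c hc
    have hc' : IsIntegral S (c * s₀ ^ (p - 1)) := hc.mul (hs₀int.pow _)
    have h1 := (h.scale hs₀0).trace (c * s₀ ^ (p - 1))
    have h2 : c = (∑ i, a i * algebraMap F E
        (Algebra.trace F E (s₀ * b i * (c * s₀ ^ (p - 1))))) * (s₀⁻¹) ^ p := by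
      have h3 : ∑ i, a i * algebraMap F E
          (Algebra.trace F E (s₀ * b i * (c * s₀ ^ (p - 1)))) = s₀ * (c * s₀ ^ (p - 1)) := by
        refine Eq.trans ?_ (congrArg (fun z => s₀ * z) h1)
        rw [Finset.mul_sum]
        refine Finset.sum_congr rfl fun i _ => ?_
        rw [mul_assoc s₀⁻¹, mul_inv_cancel_left₀ hs₀0]
      rw [h3, inv_pow, hpow s₀]
      have h4 : s₀ ^ (p - 1) ≠ 0 := pow_ne_zero _ hs₀0
      field_simp
    rw [h2]
    refine Pmul _ _ (Psum _ _ fun i _ => Pa i _ (hintE _ ((hint i).mul hc'))) hs₀i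
  intro c hc
  have h1 : c = (y c * s c ^ (p - 1)) * ((s c)⁻¹) ^ p := by
    have h0 := hs0 c hc
    have h4 : s c ^ (p - 1) ≠ 0 := pow_ne_zero _ h0
    rw [inv_pow, hpow (s c)]
    conv_lhs => rw [hxy c hc]
    field_simp
  rw [h1]
  exact Pmul _ _ (key _ ((hy c hc).mul ((hs c hc).pow _))) (hsi c hc)

end Pool.Agent.ALL6
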