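import Pool.Agent.Lib.ALL_h66.CoordA

/-!
# PROJECT ALL, block Z: separability elements with components in a ring of fractions of the
integral closure of a noetherian normal ring
-/

set_option autoImplicit false

namespace Pool.Agent.ALL6

/-- The separability element of `E / K` with components in `A`, a ring of fractions of the integral
closure of `O` in `E`, every element of which is a sum of elements `z * c ^ p`, `z ∈ O`,
`c ∈ A`. -/
theorem exists_sep_frac {K E : Type*} [Field K] [Field E] [Algebra K E] [FiniteDimensional K E]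
    [Algebra.IsSeparable K E] (p : ℕ) [CharP E p] (O : Type*) [CommRing O] [IsDomain O]
    [IsNoetherianRing O] [IsIntegrallyClosed O] [Algebra O K] [IsFractionRing O K] [Algebra O E]
    [IsScalarTower O K E] (A : Subalgebra O E) (hA1 : ∀ x : E, IsIntegral O x → x ∈ A)
    (hA2 : ∀ a ∈ A, ∃ b s : E, IsIntegral O b ∧ IsIntegral O s ∧ s ≠ 0 ∧ s⁻¹ ∈ A ∧ a = b / s)
    (hcoord : ∀ a ∈ A, a ∈ AddSubgroup.closure {x | ∃ (z : O), ∃ c ∈ A,
      x = algebraMap O E z * c ^ p}) :
    ∃ (n : ℕ) (a b : Fin n → E), (∀ i, a i ∈ A) ∧ (∀ i, b i ∈ A) ∧ Sep K E a b := by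
  classical
  have hfin : Module.Finite O (integralClosure O E) :=
    IsIntegralClosure.finite O K E (integralClosure O E)
  obtain ⟨G, hG⟩ := (Algebra.FiniteType.out : (⊤ : Subalgebra O (integralClosure O E)).FG)
  have hchar : CharP A p := (RingHom.charP_iff (algebraMap A E) Subtype.val_injective p).2 ‹_›
  -- `A` is essentially of finite type over `O`
  let ι : integralClosure O E →ₐ[O] A := Subalgebra.inclusion fun x hx => hA1 x hx
  have hadj : ∀ x : integralClosure O E, ι x ∈ Algebra.adjoin O ((G.image ι : Finset A) : Set A) := by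
    intro x
    have h1 : x ∈ Algebra.adjoin O (G : Set (integralClosure O E)) := by rw [hG]; trivial
    have h2 : ι x ∈ (Algebra.adjoin O (G : Set (integralClosure O E))).map ι := ⟨x, h1, rfl⟩
    rw [AlgHom.map_adjoin] at h2
    rw [Finset.coe_image]
    exact h2
  have hess : Algebra.EssFiniteType O A := by
    rw [Algebra.essFiniteType_iff]
    refine ⟨G.image ι, fun a => ?_⟩
    obtain ⟨b, s, hb, hs, hs0, hsi, hab⟩ := hA2 a a.2
    refine ⟨ι ⟨s, hs⟩, hadj _, ?_, ?_⟩
    · refine IsUnit.of_mul_eq_one ⟨s⁻¹, hsi⟩ (Subtype.ext ?_)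
      exact mul_inv_cancel₀ hs0
    · have h3 : a * ι ⟨s, hs⟩ = ι ⟨b, hb⟩ := by
        apply Subtype.ext
        change (a : E) * s = b
        rw [hab, div_mul_cancel₀ _ hs0]
      rw [h3]
      exact hadj _
  have hco : ∀ a : A, a ∈ AddSubgroup.closure {x | ∃ (z : O) (c : A),
      x = algebraMap O A z * c ^ p} := by
    intro a
    have h1 := hcoord a a.2
    have key : ∀ e ∈ AddSubgroup.closure {x | ∃ (z : O), ∃ c ∈ A, x = algebraMap O E z * c ^ p},
        ∃ a' : A, (a' : E) = e ∧ a' ∈ AddSubgroup.closure {x | ∃ (z : O) (c : A),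
          x = algebraMap O A z * c ^ p} := by
      intro e he
      induction he using AddSubgroup.closure_induction with
      | mem x hx =>
        obtain ⟨z, c, hc, rfl⟩ := hx
        exact ⟨algebraMap O A z * ⟨c, hc⟩ ^ p, rfl, AddSubgroup.subset_closure ⟨z, ⟨c, hc⟩, rfl⟩⟩
      | zero => exact ⟨0, rfl, AddSubgroup.zero_mem _⟩
      | add x y _ _ hx hy =>
        obtain ⟨x', rfl, hx'⟩ := hx
        obtain ⟨y', rfl, hy'⟩ := hy
        exact ⟨x' + y', rfl, AddSubgroup.add_mem _ hx' hy'⟩
      | neg x _ hx =>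
        obtain ⟨x', rfl, hx'⟩ := hx
        exact ⟨-x', rfl, AddSubgroup.neg_mem _ hx'⟩
    obtain ⟨a', ha', h2⟩ := key _ h1
    rwa [Subtype.ext ha'] at h2
  have hfrac : ∀ e : E, ∃ a s : A, algebraMap A E s ≠ 0 ∧ e = algebraMap A E a / algebraMap A E s := by
    intro e
    obtain ⟨y, hy0, hy⟩ := exists_integral_multiples O K ({e} : Finset E)
    have h1 := hy e (Finset.mem_singleton_self e)
    have hinj : Function.Injective (algebraMap O E) := by
      rw [IsScalarTower.algebraMap_eq O K E]
      exact (algebraMap K E).injective.comp (IsFractionRing.injective O K)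
    have hy1 : algebraMap O E y ≠ 0 := by
      rw [Ne, ← map_zero (algebraMap O E)]
      exact fun h => hy0 (hinj h)
    refine ⟨⟨y • e, hA1 _ h1⟩, algebraMap O A y, ?_, ?_⟩
    · rw [← IsScalarTower.algebraMap_apply O A E]; exact hy1
    · rw [← IsScalarTower.algebraMap_apply O A E]
      change e = (y • e) / algebraMap O E y
      rw [Algebra.smul_def]
      field_simp
  obtain ⟨n, a, b, h⟩ := exists_sep (F := K) (E := E) (O := O) (A := A) p hco hfrac
  exact ⟨n, fun i => a i, fun i => b i, fun i => (a i).2, fun i => (b i).2, h⟩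

end Pool.Agent.ALL6
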