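import Pool.Agent.Lib.ALL_h66.CoordB
import Pool.Agent.Lib.ALL_h94.Z2c

/-!
# PROJECT ALL, block Z: `p`-coordinates of the normalisation, abstract form

`E / K` finite separable, `O` a noetherian normal ring with field of fractions `K` and parameters
`t`, `A ⊂ E` a ring of fractions of the integral closure of `O` in `E` which is stable under the
derivations dual to `t` and closed under `p`-th roots.  If `A ⊂ C`, where `C` is a ring of fractions
of the integral closure of the integrally closed ring `S`, `O ⊂ S ⊂ K`, and the elements of `S` have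
`p`-coordinates in `C` with respect to a family `m`, so have the elements of `C`.
-/

set_option autoImplicit false

namespace Pool.Agent.ALL6

open Pool.Agent.ALLh94 (PExp mon coord_mem)

/-- The elements of `A` have `p`-coordinates in `A`. -/
theorem pexp_A {E : Type*} [Field E] {p : ℕ} [hp : Fact p.Prime] [CharP E p] {O : Type*}
    [CommRing O] [Algebra O E] {ι : Type*} [Fintype ι] [DecidableEq ι] (t : ι → O)
    (d : ι → Derivation ℤ E E)
    (hd : ∀ i j, d i (algebraMap O E (t j)) = if i = j then 1 else 0)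
    (hexp : PExp p (fun i => algebraMap O E (t i)) (Set.univ : Set E)) (A : Subalgebra O E)
    (hAd : ∀ i, ∀ a ∈ A, d i a ∈ A) (hAp : ∀ a : E, a ^ p ∈ A → a ∈ A) :
    ∀ a ∈ A, ∃ c : (ι → Fin p) → E, (∀ α, c α ∈ A) ∧
      a = ∑ α, mon (fun i => algebraMap O E (t i)) α * c α ^ p := by
  intro a ha
  obtain ⟨c, -, hc⟩ := hexp a trivial
  refine ⟨c, fun α => ?_, hc⟩
  refine coord_mem (p := p) (fun i => algebraMap O E (t i)) d hd A.toSubring.toAddSubgroup
    (fun i a ha => hAd i a ha) (fun i a ha => A.mul_mem (A.algebraMap_mem _) ha)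
    (fun a ha => hAp a ha) c ?_ α
  rw [← hc]
  exact ha

/-- **`p`-coordinates of the normalisation**, abstract form. -/
theorem coord_abs {K E : Type*} [Field K] [Field E] [Algebra K E] [FiniteDimensional K E]
    [Algebra.IsSeparable K E] {p : ℕ} [hp : Fact p.Prime] [CharP E p] (O : Type*) [CommRing O]
    [IsDomain O] [IsNoetherianRing O] [IsIntegrallyClosed O] [Algebra O K] [IsFractionRing O K]
    [Algebra O E] [IsScalarTower O K E] {ι : Type*} [Fintype ι] [DecidableEq ι] (t : ι → O)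
    (d : ι → Derivation ℤ E E)
    (hd : ∀ i j, d i (algebraMap O E (t j)) = if i = j then 1 else 0)
    (hexp : PExp p (fun i => algebraMap O E (t i)) (Set.univ : Set E)) (A : Subalgebra O E)
    (hA1 : ∀ x : E, IsIntegral O x → x ∈ A)
    (hA2 : ∀ a ∈ A, ∃ b s : E, IsIntegral O b ∧ IsIntegral O s ∧ s ≠ 0 ∧ s⁻¹ ∈ A ∧ a = b / s)
    (hAd : ∀ i, ∀ a ∈ A, d i a ∈ A) (hAp : ∀ a : E, a ^ p ∈ A → a ∈ A)
    (S : Subring K) (hS : ∀ f : K, IsIntegral S f → f ∈ S) (hOS : ∀ z : O, algebraMap O K z ∈ S)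
    (C : Subring E) (hC1 : ∀ x : E, IsIntegral S x → x ∈ C)
    (hC2 : ∀ x ∈ C, ∃ s y : E, IsIntegral S s ∧ IsIntegral S y ∧ s ≠ 0 ∧ s⁻¹ ∈ C ∧ x = y / s)
    (hAC : ∀ a ∈ A, a ∈ C) {μ : Type*} [Fintype μ] (m : μ → E)
    (hSm : ∀ s ∈ S, ∃ c : μ → E, (∀ i, c i ∈ C) ∧ algebraMap K E s = ∑ i, m i * c i ^ p) :
    ∀ x ∈ C, ∃ c : μ → E, (∀ i, c i ∈ C) ∧ x = ∑ i, m i * c i ^ p := by
  classical
  have hpA := pexp_A t d hd hexp A hAd hAp
  -- the monomials are elements of `O`
  have hmon : ∀ α : ι → Fin p, mon (fun i => algebraMap O E (t i)) α =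
      algebraMap O E (∏ i, t i ^ (α i : ℕ)) := by
    intro α
    unfold mon
    rw [map_prod]
    exact Finset.prod_congr rfl fun i _ => by rw [map_pow]
  obtain ⟨n, a, b, ha, hb, hab⟩ := exists_sep_frac (K := K) (E := E) p O A hA1 hA2 (by
    intro a ha
    obtain ⟨c, hc, rfl⟩ := hpA a ha
    refine AddSubgroup.sum_mem _ fun α _ => AddSubgroup.subset_closure ?_
    exact ⟨∏ i, t i ^ (α i : ℕ), c α, hc α, by rw [hmon]⟩)
  let P : E → Prop := fun x => ∃ c : μ → E, (∀ i, c i ∈ C) ∧ x = ∑ i, m i * c i ^ p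
  have P0 : P 0 := ⟨fun _ => 0, fun _ => C.zero_mem, by
    rw [Finset.sum_eq_zero]
    intro i _
    rw [zero_pow hp.out.ne_zero, mul_zero]⟩
  have Padd : ∀ x y, P x → P y → P (x + y) := by
    rintro _ _ ⟨c, hc, rfl⟩ ⟨e, he, rfl⟩
    refine ⟨fun i => c i + e i, fun i => C.add_mem (hc i) (he i), ?_⟩
    rw [← Finset.sum_add_distrib]
    exact Finset.sum_congr rfl fun i _ => by rw [add_pow_char]; ring
  have Pmul : ∀ x y, P x → y ∈ C → P (x * y ^ p) := by
    rintro _ y ⟨c, hc, rfl⟩ hy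
    refine ⟨fun i => c i * y, fun i => C.mul_mem (hc i) hy, ?_⟩
    rw [Finset.sum_mul]
    exact Finset.sum_congr rfl fun i _ => by rw [mul_pow]; ring
  have Psum : ∀ {κ : Type _} (s : Finset κ) (f : κ → E), (∀ i ∈ s, P (f i)) →
      P (∑ i ∈ s, f i) := by
    intro κ s f hf
    induction s using Finset.induction_on with
    | empty => simpa using P0
    | insert i s hi ih =>
      rw [Finset.sum_insert hi]
      exact Padd _ _ (hf i (Finset.mem_insert_self _ _))
        (ih fun j hj => hf j (Finset.mem_insert_of_mem hj))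
  refine hab.coord p hp.out.pos S hS C hC1 hC2 (fun i => hAC _ (hb i)) P P0 Padd Pmul ?_
  intro i s hs
  obtain ⟨c, hc, hac⟩ := hpA (a i) (ha i)
  rw [hac, Finset.sum_mul]
  refine Psum _ _ fun α _ => ?_
  have h1 : mon (fun i => algebraMap O E (t i)) α * c α ^ p * algebraMap K E s =
      algebraMap K E (algebraMap O K (∏ i, t i ^ (α i : ℕ)) * s) * c α ^ p := by
    rw [hmon, map_mul, ← IsScalarTower.algebraMap_apply O K E]
    ring
  rw [h1]
  exact Pmul _ _ (hSm _ (S.mul_mem (hOS _) hs)) (hAC _ (hc α))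

end Pool.Agent.ALL6
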