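import Pool.Agent.Lib.ALL_h66.CoordC1
import Pool.Agent.Lib.ALL_h66.RDFrame
import Pool.Agent.Lib.ALL_h59.L1

/-!
# PROJECT ALL, block Z: integrality and denominators
-/

set_option autoImplicit false

open Polynomial

namespace Pool.Agent.ALLZ

open Pool.Agent.H15JM (RVal)
open Pool.Agent.LU1 (VPos locv FracIs fixO mem_fixO)
open Pool.Agent.D2 (Ctx0)
open Pool.Agent.ALL (FR icl ICl decP)

universe u

variable {k Ω : Type u} [Field k] [Field Ω] [Algebra k Ω]

/-- If `t` is a common denominator of the coefficients of an equation of `a`, then `t a` is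
integral. -/
theorem int_scale {S T : Subalgebra k Ω} {P : T[X]} (hP : P.Monic) {a t : Ω}
    (hPa : eval₂ (algebraMap T Ω) a P = 0) (ht : t ∈ S)
    (hts : ∀ i < P.natDegree, t * (P.coeff i : Ω) ∈ S) : IsIntegral S (t * a) := by
  set d := P.natDegree with hd
  by_cases hd0 : d = 0
  · exfalso
    have h2 : P = 1 := hP.natDegree_eq_zero.1 hd0
    rw [h2, eval₂_one] at hPa
    exact one_ne_zero hPa
  let c : ℕ → S := fun i => if h : i < d then
    ⟨t ^ (d - i) * (P.coeff i : Ω), by
      have h3 : t ^ (d - i) * (P.coeff i : Ω) = t ^ (d - i - 1) * (t * (P.coeff i : Ω)) := by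
        rw [← mul_assoc, ← pow_succ]
        congr 2
        omega
      rw [h3]
      exact mul_mem (pow_mem ht _) (hts i h)⟩ else 0
  refine ⟨X ^ d + ∑ i ∈ Finset.range d, C (c i) * X ^ i, ?_, ?_⟩
  · refine monic_X_pow_add ?_
    refine (degree_sum_le _ _).trans_lt ?_
    rw [Finset.sup_lt_iff (by
      rw [bot_lt_iff_ne_bot]; exact WithBot.natCast_ne_bot d)]
    intro i hi
    refine (degree_C_mul_X_pow_le _ _).trans_lt ?_
    exact_mod_cast Finset.mem_range.1 hi
  · rw [eval₂_add, eval₂_X_pow, eval₂_finsetSum]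
    have h4 : ∑ i ∈ Finset.range d, eval₂ (algebraMap S Ω) (t * a)
        (C (c i) * X ^ i) = t ^ d * ∑ i ∈ Finset.range d, (P.coeff i : Ω) * a ^ i := by
      rw [Finset.mul_sum]
      refine Finset.sum_congr rfl fun i hi => ?_
      rw [eval₂_mul, eval₂_C, eval₂_X_pow]
      have h5 : (algebraMap S Ω) (c i) = t ^ (d - i) * (P.coeff i : Ω) := by
        simp only [c]
        rw [dif_pos (Finset.mem_range.1 hi)]
        rfl
      have h6 : t ^ d = t ^ (d - i) * t ^ i := by
        rw [← pow_add]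
        congr 1
        have := Finset.mem_range.1 hi
        omega
      rw [h5, h6, mul_pow]
      ring
    rw [h4, mul_pow, ← mul_add]
    rw [eval₂_eq_sum_range, Finset.sum_range_succ, hP.coeff_natDegree, _root_.map_one,
      one_mul] at hPa
    have h7 : a ^ d + ∑ i ∈ Finset.range d, (P.coeff i : Ω) * a ^ i = 0 := by
      rw [add_comm]
      exact hPa
    rw [h7, mul_zero]

/-- If the elements of `T` have denominators in a multiplicative set `P` of elements of `S`, so do
the elements which are integral over `T`. -/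
theorem int_den {S T : Subalgebra k Ω} (P : Ω → Prop) (P1 : P 1)
    (Pmul : ∀ s t, P s → P t → P (s * t))
    (hden : ∀ z ∈ T, ∃ s ∈ S, P s ∧ s * z ∈ S) {f : Ω} (hf : IsIntegral T f) :
    ∃ s ∈ S, P s ∧ IsIntegral S (s * f) := by
  obtain ⟨G, hG, hGf⟩ := hf
  have key : ∀ s : Finset ℕ, ∃ t ∈ S, P t ∧ ∀ i ∈ s, t * (G.coeff i : Ω) ∈ S := by
    intro s
    induction s using Finset.induction_on with
    | empty => exact ⟨1, S.one_mem, P1, fun i hi => by simp at hi⟩
    | insert i s hi ih =>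
      obtain ⟨t, ht, hPt, hts⟩ := ih
      obtain ⟨t', ht', hPt', hts'⟩ := hden _ (G.coeff i).2
      refine ⟨t * t', S.mul_mem ht ht', Pmul _ _ hPt hPt', fun j hj => ?_⟩
      rcases Finset.mem_insert.1 hj with rfl | hj
      · rw [mul_assoc]
        exact S.mul_mem ht hts'
      · have e : t * t' * (G.coeff j : Ω) = t' * (t * (G.coeff j : Ω)) := by ring
        rw [e]
        exact S.mul_mem ht' (hts j hj)
  obtain ⟨t, ht, hPt, hts⟩ := key (Finset.range G.natDegree)
  exact ⟨t, ht, hPt, int_scale hG hGf ht fun i hi => hts i (Finset.mem_range.2 hi)⟩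

/-- An element integral over `R[1/x]`. -/
theorem int_clear {R : Subalgebra k Ω} {x : Ω} {hx : x ∈ R} {a : Ω}
    (h : IsIntegral (invX R x hx) a) : ∃ M : ℕ, IsIntegral R (x ^ M * a) := by
  obtain ⟨s, -, ⟨M, rfl⟩, h1⟩ := int_den (S := R) (T := invX R x hx) (fun s => ∃ M : ℕ, s = x ^ M)
    ⟨0, by rw [pow_zero]⟩ (by
      rintro _ _ ⟨M, rfl⟩ ⟨L, rfl⟩
      exact ⟨M + L, by rw [pow_add]⟩) (by
      rintro z ⟨M, hM⟩
      exact ⟨x ^ M, R.pow_mem hx M, ⟨M, rfl⟩, hM⟩) h
  exact ⟨M, h1⟩

/-- Integrality over a subring of `K` and over the same subring of `Ω`. -/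
theorem int_iff {T : Subalgebra k Ω} {K L : IntermediateField k Ω} [Algebra K L]
    (halg : ∀ z : K, ((algebraMap K L z : L) : Ω) = z) {S : Subring K}
    (hS : ∀ s : K, s ∈ S ↔ (s : Ω) ∈ T) (hT : ∀ z ∈ T, z ∈ K) (e : L) :
    IsIntegral S e ↔ IsIntegral T (e : Ω) := by
  let φ : S →+* T :=
    { toFun := fun s => ⟨((s : K) : Ω), (hS s).1 s.2⟩
      map_one' := rfl
      map_mul' := fun _ _ => rfl
      map_zero' := rfl
      map_add' := fun _ _ => rfl }
  let ψ : T →+* S :=
    { toFun := fun s => ⟨⟨(s : Ω), hT s s.2⟩, (hS _).2 s.2⟩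
      map_one' := rfl
      map_mul' := fun _ _ => rfl
      map_zero' := rfl
      map_add' := fun _ _ => rfl }
  constructor
  · intro h
    refine IsIntegral.map_of_comp_eq φ (algebraMap L Ω) ?_ h
    ext s
    exact (halg s).symm
  · rintro ⟨P, hP, hPe⟩
    refine ⟨P.map ψ, hP.map _, ?_⟩
    apply Subtype.val_injective (p := fun z => z ∈ L)
    have h1 := hom_eval₂ (P.map ψ) (algebraMap S L) (algebraMap L Ω) e
    have h2 : (algebraMap L Ω) (eval₂ (algebraMap S L) e (P.map ψ)) = 0 := by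
      rw [h1, eval₂_map]
      have h3 : ((algebraMap L Ω).comp (algebraMap S L)).comp ψ = algebraMap T Ω := by
        ext s
        exact halg _
      rw [h3]
      exact hPe
    exact h2

end Pool.Agent.ALLZ
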