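import Pool.Agent.Lib.ALL_h66.CoordC2

/-!
# PROJECT ALL, block Z: `p`-coordinates of `C[1/x]`, ring-theoretic form

`R ≤ R'` normal local rings with the field of fractions `K`, `E = N^H`, `A = AH v R H [1/w]`
contained in `AH v R' H [1/x]` and stable under derivations of `E` dual to parameters `t` of the
normal noetherian ring `O ⊂ R`, over which `A` is a ring of fractions of the integral closure.
-/

set_option autoImplicit false

open Polynomial

namespace Pool.Agent.ALLZ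

open Pool.Agent.H15JM (RVal)
open Pool.Agent.LU1 (VPos locv FracIs fixO mem_fixO)
open Pool.Agent.D2 (Ctx0)
open Pool.Agent.ALLh94 (mon PExp coord_mem)

universe u

variable {k Ω : Type u} [Field k] [Field Ω] [Algebra k Ω] {v : RVal Ω}
variable {R R' : Subalgebra k Ω} {K : IntermediateField k Ω} {N : IntermediateField K Ω}

theorem AH_le {R R' : Subalgebra k Ω} (hRR : R ≤ R') (H : Subgroup (N ≃ₐ[K] N)) :
    AH v R H ≤ AH v R' H := by
  intro f hf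
  obtain ⟨h1, h2⟩ := mem_AH.1 hf
  refine mem_AH.2 ⟨LU1.locv_mono ?_ h1, h2⟩
  intro g hg
  refine ⟨hg.1, ?_⟩
  obtain ⟨P, hP, hPg⟩ := hg.2
  refine ⟨P.map (Subalgebra.inclusion hRR).toRingHom, hP.map _, ?_⟩
  rw [eval₂_map]
  exact hPg

/-- An element of `E` integral over `R` is in `AH v R H`. -/
theorem int_mem_AH {H : Subgroup (N ≃ₐ[K] N)} {f : Ω} (hf : f ∈ fixO K N H)
    (hi : IsIntegral R f) : f ∈ AH v R H := by
  refine mem_AH.2 ⟨intN_le_CN ⟨?_, hi⟩, hf⟩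
  obtain ⟨n, rfl, -⟩ := (mem_fixO K N H f).1 hf
  exact n.2

/-- Elements of `A`, a ring of fractions of `AH v R H`, are fractions of elements integral over
`O`. -/
theorem A_frac (h : Ctx0 k v) [FiniteDimensional K N] (hR : NRing v K R)
    (H : Subgroup (N ≃ₐ[K] N)) {O A : Subalgebra k Ω} (hOR : O ≤ R) (hRA : AH v R H ≤ A)
    (hden : ∀ z ∈ R, ∃ s ∈ O, (s ≠ 0 ∧ s⁻¹ ∈ A) ∧ s * z ∈ O) {w : Ω} (hw : w ∈ AH v R H)
    (hw0 : w ≠ 0) (hwA : w⁻¹ ∈ A) (hA : ∀ a ∈ A, ∃ M : ℕ, w ^ M * a ∈ AH v R H) :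
    ∀ a ∈ A, ∃ b s : Ω, b ∈ fixO K N H ∧ s ∈ fixO K N H ∧ IsIntegral O b ∧ IsIntegral O s ∧
      s ≠ 0 ∧ s⁻¹ ∈ A ∧ a = b / s := by
  set E := fixO K N H with hE
  have hOE : ∀ z ∈ O, z ∈ E := fun z hz => (mem_AH.1 (le_AH (v := v) hR.frac.1 H (hOR hz))).2
  let G : Ω → Prop := fun a => ∃ b s : Ω, b ∈ E ∧ s ∈ E ∧ IsIntegral O b ∧ IsIntegral O s ∧
      s ≠ 0 ∧ s⁻¹ ∈ A ∧ a = b / s
  have Gmul : ∀ a b, G a → G b → G (a * b) := by
    rintro _ _ ⟨b, s, hb, hs, hbi, hsi, hs0, hsA, rfl⟩ ⟨b', s', hb', hs', hbi', hsi', hs0', hsA', rfl⟩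
    refine ⟨b * b', s * s', mul_mem hb hb', mul_mem hs hs', hbi.mul hbi', hsi.mul hsi',
      mul_ne_zero hs0 hs0', ?_, by rw [div_mul_div_comm]⟩
    rw [mul_inv]
    exact mul_mem hsA hsA'
  have Gone : G 1 := ⟨1, 1, one_mem _, one_mem _, isIntegral_one, isIntegral_one, one_ne_zero, by
    rw [inv_one]; exact one_mem _, by rw [div_one]⟩
  have Gpow : ∀ a, G a → ∀ M : ℕ, G (a ^ M) := by
    intro a ha M
    induction M with
    | zero => rw [pow_zero]; exact Gone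
    | succ M ih => rw [pow_succ]; exact Gmul _ _ ih ha
  have hden' : ∀ f : Ω, IsIntegral R f → ∃ s ∈ O, (s ≠ 0 ∧ s⁻¹ ∈ A) ∧ IsIntegral O (s * f) := by
    intro f hf
    exact int_den (fun s => s ≠ 0 ∧ s⁻¹ ∈ A) ⟨one_ne_zero, by rw [inv_one]; exact one_mem _⟩
      (fun s t hs ht => ⟨mul_ne_zero hs.1 ht.1, by rw [mul_inv]; exact mul_mem hs.2 ht.2⟩) hden hf
  have Gint : ∀ f ∈ E, IsIntegral R f → G f := by
    intro f hf hi
    obtain ⟨s, hs, ⟨hs0, hsA⟩, hsf⟩ := hden' f hi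
    exact ⟨s * f, s, mul_mem (hOE s hs) hf, hOE s hs, hsf, isIntegral_of_mem hs, hs0, hsA, by
      field_simp⟩
  have Ginv : ∀ g ∈ E, IsIntegral R g → g ≠ 0 → g⁻¹ ∈ A → G g⁻¹ := by
    intro g hg hi hg0 hgA
    obtain ⟨s, hs, ⟨hs0, hsA⟩, hsf⟩ := hden' g hi
    refine ⟨s, s * g, hOE s hs, mul_mem (hOE s hs) hg, isIntegral_of_mem hs, hsf,
      mul_ne_zero hs0 hg0, by rw [mul_inv]; exact mul_mem hsA hgA, by field_simp⟩
  -- elements of `AH` and their fractions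
  have hAH : ∀ c ∈ AH v R H, ∃ f g : Ω, f ∈ E ∧ g ∈ E ∧ IsIntegral R f ∧ IsIntegral R g ∧
      g ≠ 0 ∧ g⁻¹ ∈ A ∧ c = f / g := by
    intro c hc
    obtain ⟨h1, h2⟩ := mem_AH.1 hc
    obtain ⟨n, rfl, hn⟩ := (mem_fixO K N H c).1 h2
    obtain ⟨s, t, hs, ht, hsf, htf, ht0, ht1, hst⟩ := CN_frac_H h hR H h1 hn
    have hsE : (s : Ω) ∈ E := (mem_fixO K N H _).2 ⟨s, rfl, hsf⟩
    have htE : (t : Ω) ∈ E := (mem_fixO K N H _).2 ⟨t, rfl, htf⟩
    refine ⟨s, t, hsE, htE, hs, ht, ht0, hRA (mem_AH.2 ⟨CN_inv (intN_le_CN ⟨t.2, ht⟩) ht0 ht1,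
      inv_mem htE⟩), ?_⟩
    rw [hst]
    push_cast
    rfl
  intro a ha
  obtain ⟨M, hM⟩ := hA a ha
  obtain ⟨f, g, hf, hg, hfi, hgi, hg0, hgA, e1⟩ := hAH _ hM
  obtain ⟨f', g', hf', hg', hfi', hgi', hg0', hgA', e2⟩ := hAH _ hw
  have hf0' : f' ≠ 0 := by
    rintro rfl
    rw [zero_div] at e2
    exact hw0 e2
  have hfA' : f'⁻¹ ∈ A := by
    have e3 : f'⁻¹ = w⁻¹ * g'⁻¹ := by
      rw [e2]
      field_simp
    rw [e3]
    exact mul_mem hwA hgA'
  have e4 : a = f * g⁻¹ * (g' * f'⁻¹) ^ M := by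
    have e5 : w ^ M ≠ 0 := pow_ne_zero _ hw0
    have e6 : (g' * f'⁻¹) ^ M = (w ^ M)⁻¹ := by
      rw [e2, ← inv_pow, inv_div, div_eq_mul_inv]
    rw [e6, ← div_eq_mul_inv f g, ← e1]
    field_simp
  rw [e4]
  exact Gmul _ _ (Gmul _ _ (Gint f hf hfi) (Ginv g hg hgi hg0 hgA))
    (Gpow _ (Gmul _ _ (Gint g' hg' hgi') (Ginv f' hf' hfi' hf0' hfA')) M)

/-- **`p`-coordinates of `C[1/x]`**, ring-theoretic form. -/
theorem coordC_core (h : Ctx0 k v) {p : ℕ} [hp : Fact p.Prime] [CharP Ω p] [FiniteDimensional K N]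
    [IsGalois K N] (hR : NRing v K R) (hR' : NRing v K R') (hRR : R ≤ R')
    (H : Subgroup (N ≃ₐ[K] N)) {E : IntermediateField k Ω} (hE : fixO K N H = E) (hKE : K ≤ E)
    {O : Subalgebra k Ω} (hOR : O ≤ R) (hOK : FracIs O K) [IsNoetherianRing O]
    [IsIntegrallyClosed O] {w : Ω} (hw : w ∈ AH v R H) (hw0 : w ≠ 0)
    (hden : ∀ z ∈ R, ∃ s ∈ O, (s ≠ 0 ∧ s⁻¹ ∈ invX (AH v R H) w hw) ∧ s * z ∈ O)
    {ι : Type*} [Fintype ι] [DecidableEq ι] (t : ι → E) (ht : ∀ i, (t i : Ω) ∈ O)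
    (d : ι → Derivation k E E) (hd : ∀ i j, d i (t j) = if i = j then 1 else 0)
    (hexp : PExp p t (Set.univ : Set E))
    (hAd : ∀ i, ∀ e : E, (e : Ω) ∈ invX (AH v R H) w hw → (d i e : Ω) ∈ invX (AH v R H) w hw)
    {x : Ω} (hx : x ∈ R') (hx0 : x ≠ 0) (hwC : ∃ M : ℕ, x ^ M * w⁻¹ ∈ AH v R' H)
    {μ : Type*} [Fintype μ] (m : μ → Ω) (hm : ∀ i, m i ∈ E)
    (hS : ∀ f ∈ R', ∃ c : μ → Ω, (∀ i, ∃ M : ℕ, x ^ M * c i ∈ R') ∧ f = ∑ i, m i * c i ^ p)
    (a : Ω) (ha : ∃ M : ℕ, x ^ M * a ∈ AH v R' H) :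
    ∃ c : μ → Ω, (∀ i, ∃ M : ℕ, x ^ M * c i ∈ AH v R' H) ∧ a = ∑ i, m i * c i ^ p := by
  classical
  have hxH : x ∈ AH v R' H := le_AH hR'.frac.1 H hx
  set A : Subalgebra k Ω := invX (AH v R H) w hw with hAdef
  set T : Subalgebra k Ω := invX R' x hx with hTdef
  set C' : Subalgebra k Ω := invX (AH v R' H) x hxH with hCdef
  have hEN : ∀ e ∈ E, e ∈ N := by
    intro e he
    rw [← hE] at he
    exact fixO_le H he
  have hAHE : ∀ {R₀ : Subalgebra k Ω}, ∀ f ∈ AH v R₀ H, f ∈ E := fun f hf => hE ▸ (mem_AH.1 hf).2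
  have hxE : x ∈ E := hAHE x hxH
  -- the algebra structures
  let algKE : Algebra K E := (IntermediateField.inclusion hKE).toRingHom.toAlgebra
  have halgKE : ∀ z : K, ((algebraMap K E z : E) : Ω) = z := fun _ => rfl
  let φ : E →ₐ[K] N :=
    { toFun := fun e => ⟨(e : Ω), hEN e e.2⟩
      map_one' := rfl
      map_mul' := fun _ _ => rfl
      map_zero' := rfl
      map_add' := fun _ _ => rfl
      commutes' := fun _ => rfl }
  have hφ : Function.Injective φ := fun a b hab =>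
    Subtype.ext (congrArg (fun z : N => (z : Ω)) hab)
  have hfd : FiniteDimensional K E := FiniteDimensional.of_injective φ.toLinearMap hφ
  have hsep : Algebra.IsSeparable K E := Algebra.IsSeparable.of_algHom K N φ
  have hchar : CharP E p := (algebraMap E Ω).charP Subtype.val_injective p
  have hOKm : ∀ z ∈ O, z ∈ K := hOK.1
  let algOK : Algebra O K :=
    RingHom.toAlgebra
      { toFun := fun z => ⟨(z : Ω), hOKm z z.2⟩
        map_one' := rfl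
        map_mul' := fun _ _ => rfl
        map_zero' := rfl
        map_add' := fun _ _ => rfl }
  let algOE : Algebra O E :=
    RingHom.toAlgebra
      { toFun := fun z => ⟨(z : Ω), hKE (hOKm z z.2)⟩
        map_one' := rfl
        map_mul' := fun _ _ => rfl
        map_zero' := rfl
        map_add' := fun _ _ => rfl }
  have htower : IsScalarTower O K E := IsScalarTower.of_algebraMap_eq fun _ => rfl
  have hOinj : Function.Injective (algebraMap O K) := fun a b hab =>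
    Subtype.ext (congrArg (fun z : K => (z : Ω)) hab)
  have hfracO : IsFractionRing O K := by
    have hfs : FaithfulSMul O K := (faithfulSMul_iff_algebraMap_injective O K).2 hOinj
    refine IsFractionRing.of_field O K fun z => ?_
    obtain ⟨a, ha, b, hb, hb0, hab⟩ := hOK.2 (z : Ω) z.2
    exact ⟨⟨a, ha⟩, ⟨b, hb⟩, Subtype.ext hab⟩
  -- integrality over `O`
  let algOΩ' : Algebra O Ω := inferInstance
  have htow2 : IsScalarTower O E Ω := IsScalarTower.of_algebraMap_eq fun _ => rfl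
  have hintO : ∀ e : E, IsIntegral O e ↔ IsIntegral O (e : Ω) := fun e =>
    (isIntegral_algebraMap_iff (A := E) (B := Ω) Subtype.val_injective).symm
  -- the ring `A` inside `E`
  let AE : Subalgebra O E :=
    { carrier := {e | (e : Ω) ∈ A}
      mul_mem' := fun ha hb => A.mul_mem ha hb
      add_mem' := fun ha hb => A.add_mem ha hb
      algebraMap_mem' := fun z => le_invX (hx := hw) (le_AH hR.frac.1 H (hOR z.2)) }
  have hwE : w ∈ E := hAHE w hw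
  have hwA : w⁻¹ ∈ A := ⟨1, by rw [pow_one, mul_inv_cancel₀ hw0]; exact one_mem _⟩
  have hA1 : ∀ e : E, IsIntegral O e → e ∈ AE := by
    intro e he
    have h1 : IsIntegral R (e : Ω) := by
      obtain ⟨P, hP, hPe⟩ := (hintO e).1 he
      refine ⟨P.map (Subalgebra.inclusion hOR).toRingHom, hP.map _, ?_⟩
      rw [eval₂_map]
      exact hPe
    exact le_invX (hx := hw) (int_mem_AH (v := v) (H := H) (by rw [hE]; exact e.2) h1)
  have hA2 : ∀ e ∈ AE, ∃ b s : E, IsIntegral O b ∧ IsIntegral O s ∧ s ≠ 0 ∧ s⁻¹ ∈ AE ∧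
      e = b / s := by
    intro e he
    obtain ⟨b, s, hb, hs, hbi, hsi, hs0, hsA, hes⟩ := A_frac h hR H hOR (le_invX (hx := hw))
      hden hw hw0 hwA (fun a ha => ha) (e : Ω) he
    rw [hE] at hb hs
    refine ⟨⟨b, hb⟩, ⟨s, hs⟩, (hintO _).2 hbi, (hintO _).2 hsi,
      fun h0 => hs0 (congrArg Subtype.val h0), hsA, Subtype.ext hes⟩
  have hAp : ∀ e : E, e ^ p ∈ AE → e ∈ AE := by
    rintro e ⟨M, hM⟩
    refine ⟨M, mem_AH.2 ⟨CN_normal hR.frac.1 ?_ ?_, ?_⟩⟩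
    · exact mul_mem (pow_mem (hEN w hwE) _) (hEN e e.2)
    · have h1 : (w ^ M * (e : Ω)) ^ p = w ^ (M * (p - 1)) * (w ^ M * (e : Ω) ^ p) := by
        have h3 : (w ^ M * (e : Ω)) ^ p = w ^ (M * p) * (e : Ω) ^ p := by
          rw [mul_pow, ← pow_mul]
        have h4 : M * p = M * (p - 1) + M := by
          obtain ⟨q, hq⟩ : ∃ q, p = q + 1 := ⟨p - 1, by have := hp.out.pos; omega⟩
          rw [hq, Nat.add_sub_cancel]
          ring
        rw [h3, h4, pow_add]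
        ring
      refine IsIntegral.of_pow hp.out.pos ?_
      rw [h1]
      have hM' : w ^ M * (e : Ω) ^ p ∈ AH v R H := by
        have h5 : (((e ^ p : E)) : Ω) = (e : Ω) ^ p := by push_cast; rfl
        rw [← h5]
        exact hM
      have h2 : w ^ (M * (p - 1)) * (w ^ M * (e : Ω) ^ p) ∈ CN v R N :=
        (mem_AH.1 ((AH v R H).mul_mem ((AH v R H).pow_mem hw _) hM')).1
      exact isIntegral_algebraMap (R := CN v R N) (A := Ω) (x := ⟨_, h2⟩)
    · rw [hE]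
      exact mul_mem (pow_mem hwE _) e.2
  -- the ring `S`
  let S : Subring K :=
    { carrier := {z | (z : Ω) ∈ T}
      mul_mem' := fun ha hb => T.mul_mem ha hb
      add_mem' := fun ha hb => T.add_mem ha hb
      one_mem' := T.one_mem
      zero_mem' := T.zero_mem
      neg_mem' := fun ha => T.neg_mem ha }
  have hTK : ∀ z ∈ T, z ∈ K := by
    rintro z ⟨M, hM⟩
    have h1 : z = (x ^ M)⁻¹ * (x ^ M * z) := by
      rw [inv_mul_cancel_left₀ (pow_ne_zero _ hx0)]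
    rw [h1]
    exact mul_mem (inv_mem (pow_mem (hR'.frac.1 x hx) _)) (hR'.frac.1 _ hM)
  have hSint : ∀ f : K, IsIntegral S f → f ∈ S := by
    intro f hf
    have h1 : IsIntegral T (f : Ω) := (int_iff (T := T) (fun _ => rfl) (fun _ => Iff.rfl) hTK f).1 hf
    obtain ⟨M, hM⟩ := int_clear h1
    exact ⟨M, hR'.normal _ (mul_mem (pow_mem (hR'.frac.1 x hx) _) f.2) hM⟩
  have hSE : ∀ e : E, IsIntegral S e ↔ IsIntegral T (e : Ω) := fun e =>
    int_iff (T := T) halgKE (fun _ => Iff.rfl) hTK e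
  have hOS : ∀ z : O, algebraMap O K z ∈ S := fun z => le_invX (hx := hx) (hRR (hOR z.2))
  -- the ring `C`
  let C : Subring E :=
    { carrier := {z | (z : Ω) ∈ C'}
      mul_mem' := fun ha hb => C'.mul_mem ha hb
      add_mem' := fun ha hb => C'.add_mem ha hb
      one_mem' := C'.one_mem
      zero_mem' := C'.zero_mem
      neg_mem' := fun ha => C'.neg_mem ha }
  have hC1 : ∀ e : E, IsIntegral S e → e ∈ C := by
    intro e he
    obtain ⟨M, hM⟩ := int_clear ((hSE e).1 he)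
    exact ⟨M, int_mem_AH (by rw [hE]; exact mul_mem (pow_mem hxE _) e.2) hM⟩
  have hTint : ∀ {f : Ω}, IsIntegral R' f → IsIntegral T f := by
    rintro f ⟨P, hP, hPe⟩
    refine ⟨P.map (Subalgebra.inclusion (le_invX (hx := hx))).toRingHom, hP.map _, ?_⟩
    rw [eval₂_map]
    exact hPe
  have hC2 : ∀ e ∈ C, ∃ s y : E, IsIntegral S s ∧ IsIntegral S y ∧ s ≠ 0 ∧ s⁻¹ ∈ C ∧
      e = y / s := by
    rintro e ⟨M, hM⟩
    obtain ⟨h1, h2⟩ := mem_AH.1 hM
    obtain ⟨n, hn, hnf⟩ := (mem_fixO K N H _).1 h2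
    rw [← hn] at h1
    obtain ⟨s, t, hs, ht, hsf, htf, ht0, ht1, hst⟩ := CN_frac_H h hR' H h1 hnf
    have hsE : (s : Ω) ∈ E := by rw [← hE]; exact (mem_fixO K N H _).2 ⟨s, rfl, hsf⟩
    have htE : (t : Ω) ∈ E := by rw [← hE]; exact (mem_fixO K N H _).2 ⟨t, rfl, htf⟩
    have hxM : x ^ M ∈ E := pow_mem hxE _
    have hxM0 : x ^ M ≠ 0 := pow_ne_zero _ hx0
    refine ⟨⟨x ^ M, hxM⟩ * ⟨t, htE⟩, ⟨s, hsE⟩, (hSE _).2 (hTint ?_), (hSE _).2 (hTint hs), ?_,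
      ?_, ?_⟩
    · push_cast
      exact (isIntegral_of_mem (R'.pow_mem hx M)).mul ht
    · refine mul_ne_zero (fun h0 => hxM0 (congrArg Subtype.val h0))
        (fun h0 => ht0 (congrArg Subtype.val h0))
    · refine ⟨M, ?_⟩
      have e1 : x ^ M * (((⟨x ^ M, hxM⟩ * ⟨t, htE⟩ : E)⁻¹ : E) : Ω) = (t : Ω)⁻¹ := by
        push_cast
        field_simp
      rw [e1]
      refine mem_AH.2 ⟨CN_inv (intN_le_CN ⟨t.2, ht⟩) ht0 ht1, ?_⟩
      rw [hE]
      exact inv_mem htE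
    · apply Subtype.ext
      push_cast
      have e2 : x ^ M * (e : Ω) = (s : Ω) / (t : Ω) := by
        rw [← hn, hst]
        push_cast
        rfl
      rw [eq_div_iff (mul_ne_zero hxM0 ht0)]
      calc (e : Ω) * (x ^ M * (t : Ω)) = (x ^ M * (e : Ω)) * t := by ring
        _ = s := by rw [e2, div_mul_cancel₀ _ ht0]
  have hAC : ∀ e ∈ AE, e ∈ C := by
    rintro e ⟨M, hM⟩
    have h1 : w ^ M * (e : Ω) ∈ C' := le_invX (hx := hxH) (AH_le hRR H hM)
    have h2 : (w⁻¹) ^ M ∈ C' := C'.pow_mem hwC _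
    have h3 : (e : Ω) = (w⁻¹) ^ M * (w ^ M * (e : Ω)) := by
      rw [inv_pow, inv_mul_cancel_left₀ (pow_ne_zero _ hw0)]
    change (e : Ω) ∈ C'
    rw [h3]
    exact C'.mul_mem h2 h1
  have hTC : T ≤ C' := by
    rintro z ⟨M, hM⟩
    exact ⟨M, le_AH hR'.frac.1 H hM⟩
  have hSm : ∀ s ∈ S, ∃ c : μ → E, (∀ i, c i ∈ C) ∧
      algebraMap K E s = ∑ i, (⟨m i, hm i⟩ : E) * c i ^ p := by
    rintro s ⟨M, hM⟩
    obtain ⟨c, hc, e1⟩ := hS (x ^ (M * (p - 1)) * (x ^ M * (s : Ω)))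
      (R'.mul_mem (R'.pow_mem hx _) hM)
    have hcT : ∀ i, (x⁻¹) ^ M * c i ∈ T := fun i => by
      refine T.mul_mem (T.pow_mem ⟨1, ?_⟩ _) (hc i)
      rw [pow_one, mul_inv_cancel₀ hx0]
      exact one_mem _
    refine ⟨fun i => ⟨(x⁻¹) ^ M * c i, hKE (hTK _ (hcT i))⟩, fun i => hTC (hcT i), ?_⟩
    apply Subtype.ext
    push_cast
    rw [halgKE]
    have e2 : (s : Ω) = ((x⁻¹) ^ M) ^ p * (x ^ (M * (p - 1)) * (x ^ M * (s : Ω))) := by
      have h4 : M * p = M * (p - 1) + M := by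
        obtain ⟨q, hq⟩ : ∃ q, p = q + 1 := ⟨p - 1, by have := hp.out.pos; omega⟩
        rw [hq, Nat.add_sub_cancel]
        ring
      have e3 : x ^ (M * (p - 1)) * (x ^ M * (s : Ω)) = x ^ (M * p) * s := by
        rw [h4, pow_add]
        ring
      rw [e3, ← pow_mul, inv_pow, inv_mul_cancel_left₀ (pow_ne_zero _ hx0)]
    rw [e2, e1, Finset.mul_sum]
    exact Finset.sum_congr rfl fun i _ => by rw [mul_pow]; ring
  have ht' : ∀ i, algebraMap O E ⟨(t i : Ω), ht i⟩ = t i := fun i => rfl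
  have haE : a ∈ E := by
    obtain ⟨M, hM⟩ := ha
    have h1 : a = (x ^ M)⁻¹ * (x ^ M * a) := by
      rw [inv_mul_cancel_left₀ (pow_ne_zero _ hx0)]
    rw [h1]
    exact mul_mem (inv_mem (pow_mem hxE _)) (hAHE _ hM)
  obtain ⟨c, hc, hac⟩ := ALL6.coord_abs (K := K) (E := E) (p := p) O (fun i => ⟨(t i : Ω), ht i⟩)
    (fun i => (d i).restrictScalars ℤ) (fun i j => hd i j) hexp AE hA1 hA2
    (fun i e he => hAd i e he) hAp S hSint hOS C hC1 hC2 hAC (fun i => (⟨m i, hm i⟩ : E)) hSm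
    ⟨a, haE⟩ ha
  refine ⟨fun i => (c i : Ω), fun i => hc i, ?_⟩
  have h1 := congrArg (fun e : E => (e : Ω)) hac
  simp only at h1
  rw [h1]
  push_cast
  rfl

end Pool.Agent.ALLZ
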