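import Pool.Agent.Lib.ALL_h66.CoordC3
import Pool.Agent.Lib.ALL_h94.Norm
import Pool.Agent.Lib.ALL_h94.Beta

/-!
# PROJECT ALL, block Z: the polynomial ring of a rational frame
-/

set_option autoImplicit false

open Polynomial

namespace Pool.Agent.ALLZ

open Pool.Agent.H15JM (RVal)
open Pool.Agent.LU1 (VPos locv FracIs fixO mem_fixO GoodBasis)
open Pool.Agent.D2 (Ctx0)
open Pool.Agent.ALL (FR icl ICl decP)
open Pool.Agent.ALLh94 (mon PExp coord_mem NFD)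

universe u

variable {k Ω : Type u} [Field k] [Field Ω] [Algebra k Ω] {v : RVal Ω} {r D : ℕ}

/-- The parameters `χ(u_i)`, `y_j`. -/
def tt (F : FR k v D) (u : Fin r → ℝ) : Fin r ⊕ Fin D → Ω :=
  Sum.elim (fun i => F.χ (u i)) F.y

/-- The polynomial ring `k[χ(u_i), y_j]`. -/
def OO (F : FR k v D) (u : Fin r → ℝ) : Subalgebra k Ω := Algebra.adjoin k (Set.range (tt F u))

/-- The product of the `χ(u_i)`. -/
def xx (F : FR k v D) (u : Fin r → ℝ) : Ω := ∏ i, F.χ (u i)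

variable {F : FR k v D} {u : Fin r → ℝ} {S : Set ℝ}

theorem tt_mem_OO (i : Fin r ⊕ Fin D) : tt F u i ∈ OO F u := Algebra.subset_adjoin ⟨i, rfl⟩

theorem tt_mem_R (hu : GoodBasis F.Γ S u) (i : Fin r ⊕ Fin D) : tt F u i ∈ F.R := by
  rcases i with i | j
  · exact F.χ_mem _ (hu.mem i) (hu.pos i).le
  · exact F.y_mem j

theorem OO_le (hu : GoodBasis F.Γ S u) : OO F u ≤ F.R := by
  refine Algebra.adjoin_le ?_
  rintro _ ⟨i, rfl⟩
  exact tt_mem_R hu i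

theorem xx_ne (hu : GoodBasis F.Γ S u) : xx F u ≠ 0 :=
  Finset.prod_ne_zero_iff.2 fun i _ => F.χ_ne _ (hu.mem i)

theorem xx_mem_OO : xx F u ∈ OO F u :=
  Subalgebra.prod_mem _ fun i _ => tt_mem_OO (F := F) (u := u) (Sum.inl i)

/-- The monomials have bounded denominators. -/
theorem χ_clear (hu : GoodBasis F.Γ S u) {γ : ℝ} (hγ : γ ∈ F.Γ) :
    ∃ (M : ℕ) (n : Fin r → ℕ), xx F u ^ M * F.χ γ = ∏ i, F.χ (u i) ^ n i := by
  obtain ⟨m, hm⟩ := hu.gen γ hγ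
  have h1 := (ALLh94.χ_sum F Finset.univ u hu.mem m).2
  rw [← hm] at h1
  refine ⟨∑ i, (m i).natAbs, fun i => ((∑ j, (m j).natAbs : ℕ) + m i : ℤ).toNat, ?_⟩
  rw [h1, xx, ← Finset.prod_pow, ← Finset.prod_mul_distrib]
  refine Finset.prod_congr rfl fun i _ => ?_
  have h2 : (m i).natAbs ≤ ∑ j, (m j).natAbs :=
    Finset.single_le_sum (f := fun j => (m j).natAbs) (fun _ _ => Nat.zero_le _)
      (Finset.mem_univ i)
  have h3 : 0 ≤ ((∑ j, (m j).natAbs : ℕ) + m i : ℤ) := by omega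
  rw [← zpow_natCast (F.χ (u i)) (((∑ j, (m j).natAbs : ℕ) + m i : ℤ).toNat),
    Int.toNat_of_nonneg h3, zpow_add₀ (F.χ_ne _ (hu.mem i)), zpow_natCast]

/-- Denominators in the polynomial ring. -/
theorem OO_clear (hu : GoodBasis F.Γ S u) {z : Ω}
    (hz : z ∈ Algebra.adjoin k (F.χ '' {γ | γ ∈ F.Γ ∧ 0 ≤ γ} ∪ Set.range F.y)) :
    ∃ M : ℕ, xx F u ^ M * z ∈ OO F u := by
  induction hz using Algebra.adjoin_induction with
  | mem z hz =>
    rcases hz with ⟨γ, ⟨hγ, -⟩, rfl⟩ | ⟨j, rfl⟩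
    · obtain ⟨M, n, h1⟩ := χ_clear hu hγ
      refine ⟨M, ?_⟩
      rw [h1]
      exact Subalgebra.prod_mem _ fun i _ =>
        Subalgebra.pow_mem _ (tt_mem_OO (F := F) (u := u) (Sum.inl i)) _
    · exact ⟨0, by rw [pow_zero, one_mul]; exact tt_mem_OO (F := F) (u := u) (Sum.inr j)⟩
  | algebraMap c => exact ⟨0, by rw [pow_zero, one_mul]; exact Subalgebra.algebraMap_mem _ c⟩
  | add a b _ _ ha hb =>
    obtain ⟨M, hM⟩ := ha
    obtain ⟨L, hL⟩ := hb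
    refine ⟨M + L, ?_⟩
    have e : xx F u ^ (M + L) * (a + b) = xx F u ^ L * (xx F u ^ M * a) +
        xx F u ^ M * (xx F u ^ L * b) := by ring
    rw [e]
    exact add_mem (mul_mem (pow_mem xx_mem_OO _) hM) (mul_mem (pow_mem xx_mem_OO _) hL)
  | mul a b _ _ ha hb =>
    obtain ⟨M, hM⟩ := ha
    obtain ⟨L, hL⟩ := hb
    refine ⟨M + L, ?_⟩
    have e : xx F u ^ (M + L) * (a * b) = (xx F u ^ M * a) * (xx F u ^ L * b) := by ring
    rw [e]
    exact mul_mem hM hL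

/-- The elements of the ring of a rational frame are fractions of polynomials; the denominator is a
unit of the ring up to monomials. -/
theorem OO_den (hF : F.Rat) (hu : GoodBasis F.Γ S u) {A : Subalgebra k Ω} (hRA : F.R ≤ A)
    (hxA : (xx F u)⁻¹ ∈ A) :
    ∀ z ∈ F.R, ∃ s ∈ OO F u, (s ≠ 0 ∧ s⁻¹ ∈ A) ∧ s * z ∈ OO F u := by
  intro z hz
  have hz' := hz
  rw [hF] at hz'
  obtain ⟨a, ha, b, hb, hb0, hvb, rfl⟩ := hz'
  obtain ⟨M, hM⟩ := OO_clear hu ha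
  obtain ⟨L, hL⟩ := OO_clear hu hb
  have hbR : b ∈ F.R := by
    rw [hF]
    exact LU1.le_locv _ hb
  have hx0 := xx_ne hu
  refine ⟨xx F u ^ M * (xx F u ^ L * b), mul_mem (pow_mem xx_mem_OO _) hL,
    ⟨mul_ne_zero (pow_ne_zero _ hx0) (mul_ne_zero (pow_ne_zero _ hx0) hb0), ?_⟩, ?_⟩
  · rw [mul_inv, mul_inv, ← inv_pow, ← inv_pow]
    exact mul_mem (pow_mem hxA _) (mul_mem (pow_mem hxA _) (hRA (F.loc b hbR hb0 hvb)))
  · have e : xx F u ^ M * (xx F u ^ L * b) * (a / b) = xx F u ^ L * (xx F u ^ M * a) := by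
      field_simp
    rw [e]
    exact mul_mem (pow_mem xx_mem_OO _) hM

/-- `K` is the field of fractions of the polynomial ring. -/
theorem OO_frac (hF : F.Rat) (hu : GoodBasis F.Γ S u) {K : IntermediateField k Ω}
    (hK : FracIs F.R K) : FracIs (OO F u) K := by
  refine ⟨fun f hf => hK.1 f (OO_le hu hf), fun g hg => ?_⟩
  have hden := OO_den hF hu (A := K.toSubalgebra) (fun f hf => hK.1 f hf)
    (K.inv_mem (hK.1 _ (OO_le hu xx_mem_OO)))
  obtain ⟨a, ha, b, hb, hb0, rfl⟩ := hK.2 g hg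
  obtain ⟨s, hs, ⟨hs0, -⟩, hsa⟩ := hden a ha
  obtain ⟨t, ht, ⟨ht0, -⟩, htb⟩ := hden b hb
  refine ⟨t * (s * a), mul_mem ht hsa, s * (t * b), mul_mem hs htb,
    mul_ne_zero hs0 (mul_ne_zero ht0 hb0), ?_⟩
  field_simp

theorem OO_noeth (hind : AlgebraicIndependent k (tt F u)) : IsNoetherianRing (OO F u) :=
  isNoetherianRing_of_ringEquiv _ hind.aevalEquiv.toRingEquiv

theorem OO_normal (hind : AlgebraicIndependent k (tt F u)) : IsIntegrallyClosed (OO F u) :=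
  IsIntegrallyClosed.of_equiv hind.aevalEquiv.toRingEquiv

end Pool.Agent.ALLZ
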