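import Pool.Agent.Lib.ALL_h66.Z1c
import Pool.Agent.Lib.LU1_h15.EtDesc

/-!
# PROJECT ALL, block Z, rows Z1d and L0

`CN` is integrally closed in `N`, `RD` is a normal local ring, `A₂ = CN ⊓ K₂` is the integral
closure of `RD` in `K₂`; elements of `C = CN ⊓ E`.
-/

set_option autoImplicit false

open Polynomial

namespace Pool.Agent.ALLZ

open Pool.Agent.H15JM (RVal)
open Pool.Agent.LU1 (VPos locv FracIs fixO mem_fixO val_add_vpos)
open Pool.Agent.D2 (Ctx0)

universe u

variable {k Ω : Type u} [Field k] [Field Ω] [Algebra k Ω] {v : RVal Ω}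
variable {R : Subalgebra k Ω} {F : IntermediateField k Ω} {N : IntermediateField F Ω}

/-- An element which is integral over the integral closure is integral. -/
theorem int_trans {S : Subalgebra k Ω} (hRS : ∀ f ∈ R, f ∈ S) (hS : ∀ f ∈ S, IsIntegral R f)
    {g : Ω} (hg : IsIntegral S g) : IsIntegral R g := by
  let _ : Algebra R S := (Subalgebra.inclusion (fun f hf => hRS f hf)).toRingHom.toAlgebra
  have _ : IsScalarTower R S Ω := IsScalarTower.of_algebraMap_eq fun _ => rfl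
  have _ : Algebra.IsIntegral R S := by
    constructor
    intro s
    have h1 := hS s s.2
    have h2 : Function.Injective (algebraMap S Ω) := Subtype.val_injective
    exact (isIntegral_algebraMap_iff (A := S) (B := Ω) h2).1 h1
  exact isIntegral_trans (A := S) g hg

/-- Finitely many elements of `locv v S` have a common denominator. -/
theorem exists_common_den {S : Subalgebra k Ω} {ι : Type*} (s : Finset ι) (f : ι → Ω)
    (hf : ∀ i ∈ s, f i ∈ locv v S) : ∃ t ∈ S, t ≠ 0 ∧ v t = 0 ∧ ∀ i ∈ s, t * f i ∈ S := by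
  classical
  induction s using Finset.induction_on with
  | empty => exact ⟨1, one_mem _, one_ne_zero, v.map_one, fun i hi => by simp at hi⟩
  | insert i s hi ih =>
    obtain ⟨t, ht, ht0, ht1, hts⟩ := ih fun j hj => hf j (Finset.mem_insert_of_mem hj)
    obtain ⟨a, ha, b, hb, hb0, hb1, hab⟩ := hf i (Finset.mem_insert_self i s)
    refine ⟨t * b, mul_mem ht hb, mul_ne_zero ht0 hb0, by
      rw [v.map_mul ht0 hb0, ht1, hb1, add_zero], fun j hj => ?_⟩
    rcases Finset.mem_insert.1 hj with rfl | hj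
    · rw [hab]
      have : t * b * (a / b) = t * a := by field_simp
      rw [this]
      exact mul_mem ht ha
    · have : t * b * f j = b * (t * f j) := by ring
      rw [this]
      exact mul_mem hb (hts j hj)

/-- `CN` is integrally closed in `N`. -/
theorem CN_normal (hR : ∀ f ∈ R, f ∈ F) {a : Ω} (ha : a ∈ N) (hi : IsIntegral (CN v R N) a) :
    a ∈ CN v R N := by
  obtain ⟨P, hP, hPa⟩ := hi
  obtain ⟨t, ht, ht0, ht1, hts⟩ := exists_common_den (v := v) (S := intN R N)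
    (Finset.range P.natDegree) (fun i => (P.coeff i : Ω)) fun i _ => (P.coeff i).2
  set d := P.natDegree with hd
  -- `t a` is integral over `intN`
  have h1 : IsIntegral (intN R N) (t * a) := by
    by_cases hd0 : d = 0
    · exfalso
      have h2 : P = 1 := hP.natDegree_eq_zero.1 hd0
      rw [h2, eval₂_one] at hPa
      exact one_ne_zero hPa
    let c : ℕ → intN R N := fun i => if h : i < d then
      ⟨t ^ (d - i) * (P.coeff i : Ω), by
        have h3 : t ^ (d - i) * (P.coeff i : Ω) = t ^ (d - i - 1) * (t * (P.coeff i : Ω)) := by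
          rw [← mul_assoc, ← pow_succ]
          congr 2
          omega
        rw [h3]
        exact mul_mem (pow_mem ht _) (hts i (Finset.mem_range.2 h))⟩ else 0
    refine ⟨X ^ d + ∑ i ∈ Finset.range d, C (c i) * X ^ i, ?_, ?_⟩
    · refine monic_X_pow_add ?_
      refine (degree_sum_le _ _).trans_lt ?_
      rw [Finset.sup_lt_iff (by
        rw [bot_lt_iff_ne_bot]; exact WithBot.natCast_ne_bot d)]
      intro i hi
      refine (degree_C_mul_X_pow_le _ _).trans_lt ?_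
      exact_mod_cast Finset.mem_range.1 hi
    · rw [eval₂_add, eval₂_X_pow, eval₂_finsetSum]
      have h4 : ∑ i ∈ Finset.range d, eval₂ (algebraMap (intN R N) Ω) (t * a)
          (C (c i) * X ^ i) = t ^ d * ∑ i ∈ Finset.range d, (P.coeff i : Ω) * a ^ i := by
        rw [Finset.mul_sum]
        refine Finset.sum_congr rfl fun i hi => ?_
        rw [eval₂_mul, eval₂_C, eval₂_X_pow]
        have h5 : (algebraMap (intN R N) Ω) (c i) = t ^ (d - i) * (P.coeff i : Ω) := by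
          simp only [c]
          rw [dif_pos (Finset.mem_range.1 hi)]
          rfl
        have h6 : t ^ d = t ^ (d - i) * t ^ i := by
          rw [← pow_add]
          congr 1
          have := Finset.mem_range.1 hi
          omega
        rw [h5, h6, mul_pow]
        ring
      rw [h4, mul_pow, ← mul_add]
      rw [eval₂_eq_sum_range, Finset.sum_range_succ, hP.coeff_natDegree, _root_.map_one,
        one_mul] at hPa
      have h7 : a ^ d + ∑ i ∈ Finset.range d, (P.coeff i : Ω) * a ^ i = 0 := by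
        rw [add_comm]
        exact hPa
      rw [h7, mul_zero]
  have h2 : IsIntegral R (t * a) := int_trans (S := intN R N) (fun f hf => le_intN hR hf)
    (fun f hf => hf.2) h1
  exact ⟨t * a, ⟨mul_mem ht.1 ha, h2⟩, t, ht, ht0, ht1, by field_simp⟩

/-- L0: `A₂ = CN ⊓ K₂` is the integral closure of `RD` in `K₂`. -/
theorem mem_CN_iff [FiniteDimensional F N] (hR : NRing v F R) (H : Subgroup (N ≃ₐ[F] N)) {a : Ω}
    (ha : a ∈ fixO F N (DP v R N hR.frac.1 ⊓ H)) :
    a ∈ CN v R N ↔ IsIntegral (RD v R N hR.frac.1) a := by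
  obtain ⟨n, rfl, hn⟩ := (mem_fixO F N _ a).1 ha
  constructor
  · intro h
    obtain ⟨s, t, hs, ht, -, htf, ht0, ht1, rfl⟩ := CN_frac hR H h hn
    have htR : (t : Ω) ∈ RD v R N hR.frac.1 :=
      ⟨intN_le_CN ⟨t.2, ht⟩, (mem_fixO F N _ _).2 ⟨t, rfl, htf⟩⟩
    have h1 : IsIntegral (RD v R N hR.frac.1) ((t : Ω)⁻¹) :=
      isIntegral_of_mem (RD_inv htR ht0 ht1)
    have h2 : IsIntegral (RD v R N hR.frac.1) (s : Ω) := by
      obtain ⟨P, hP, hPs⟩ := hs
      refine ⟨P.map (Subalgebra.inclusion (le_RD (hR := hR.frac.1))).toRingHom, hP.map _, ?_⟩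
      rw [eval₂_map]
      exact hPs
    push_cast
    rw [div_eq_mul_inv]
    exact h2.mul h1
  · intro h
    refine CN_normal hR.frac.1 n.2 ?_
    obtain ⟨P, hP, hPs⟩ := h
    refine ⟨P.map (Subalgebra.inclusion (inf_le_left :
      RD v R N hR.frac.1 ≤ CN v R N)).toRingHom, hP.map _, ?_⟩
    rw [eval₂_map]
    exact hPs

/-- Every element of `N` becomes integral after multiplication by an element of `R`. -/
theorem exists_mul_int [FiniteDimensional F N] (hR : NRing v F R) (n : N) :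
    ∃ r ∈ R, r ≠ 0 ∧ IsIntegral R (r * (n : Ω)) := by
  have h1 : IsAlgebraic F (n : Ω) := by
    have : IsAlgebraic F n := Algebra.IsAlgebraic.isAlgebraic n
    exact this.algebraMap
  have h2 : IsAlgebraic R (n : Ω) := LU1.isAlgebraic_of_frac hR.frac h1
  obtain ⟨y, hy0, hy⟩ := h2.exists_integral_multiple
  refine ⟨y, y.2, ?_, ?_⟩
  · intro h0
    exact hy0 (Subtype.ext h0)
  · have : (y : Ω) * (n : Ω) = y • (n : Ω) := rfl
    rw [this]
    exact hy

/-- The ring of the decomposition field is a normal local ring. -/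
theorem RD_nring [FiniteDimensional F N] (hR : NRing v F R) :
    NRing v (FD v R N hR.frac.1) (RD v R N hR.frac.1) where
  frac := by
    refine ⟨fun f hf => hf.2, fun g hg => ?_⟩
    obtain ⟨n, rfl, hn⟩ := (mem_fixO F N _ g).1 hg
    obtain ⟨r, hr, hr0, hi⟩ := exists_mul_int hR n
    have hrF : r ∈ FD v R N hR.frac.1 := (le_RD hr).2
    refine ⟨r * n, ⟨intN_le_CN ⟨mul_mem (N.algebraMap_mem ⟨r, hR.frac.1 r hr⟩) n.2, hi⟩,
      mul_mem (S := IntermediateField k Ω) hrF hg⟩, r, le_RD hr, hr0, by field_simp⟩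
  nonneg := fun f hf => CN_nonneg hR.nonneg f hf.1
  loc := fun f hf h0 h1 => RD_inv hf h0 h1
  normal := by
    intro f hf hi
    have hf' : f ∈ fixO F N (DP v R N hR.frac.1 ⊓ ⊤) := by
      rw [inf_top_eq]; exact hf
    exact ⟨(mem_CN_iff hR ⊤ hf').2 hi, hf⟩

/-- The sum of the orbit of `θ`. -/
noncomputable def tE [FiniteDimensional F N] (θ : N) (H : Subgroup (N ≃ₐ[F] N)) : N :=
  ∑ t ∈ IsTheta.orb θ H, t

theorem val_add_sum {ι : Type*} (s : Finset ι) (f : ι → Ω) {a : Ω} (ha : a ≠ 0) (hv : v a = 0)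
    (h : ∀ i ∈ s, VPos v (f i)) : a + ∑ i ∈ s, f i ≠ 0 ∧ v (a + ∑ i ∈ s, f i) = 0 := by
  refine val_add_vpos ha hv ?_
  classical
  induction s using Finset.induction_on with
  | empty => simpa using VPos.zero
  | insert i s hi ih =>
    rw [Finset.sum_insert hi]
    exact (h i (Finset.mem_insert_self i s)).add
      (ih fun j hj => h j (Finset.mem_insert_of_mem hj))

namespace IsTheta

variable {hR : ∀ f ∈ R, f ∈ F} {θ : N}

theorem tE_int [FiniteDimensional F N] (h : IsTheta v R N hR θ) (H : Subgroup (N ≃ₐ[F] N)) :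
    IsIntegral R (tE θ H : Ω) := by
  unfold tE
  push_cast
  exact IsIntegral.sum _ fun t ht => h.int_orb ht

theorem tE_val [FiniteDimensional F N] (h : IsTheta v R N hR θ) (H : Subgroup (N ≃ₐ[F] N)) :
    (tE θ H : Ω) ≠ 0 ∧ v (tE θ H : Ω) = 0 := by
  classical
  unfold tE
  rw [← Finset.add_sum_erase _ _ (self_mem_orb (θ := θ) H)]
  push_cast
  exact val_add_sum _ _ h.val.1 h.val.2 fun t ht =>
    h.vpos_orb (Finset.mem_of_mem_erase ht) (Finset.ne_of_mem_erase ht)

theorem tE_fix [FiniteDimensional F N] (H : Subgroup (N ≃ₐ[F] N)) {σ : N ≃ₐ[F] N}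
    (hσ : σ ∈ H) : σ (tE θ H) = tE θ H := by
  unfold tE
  rw [_root_.map_sum]
  refine Finset.sum_bij (fun t _ => σ t) ?_ ?_ ?_ ?_
  · intro t ht
    obtain ⟨τ, hτ, rfl⟩ := mem_orb.1 ht
    exact mem_orb.2 ⟨σ * τ, H.mul_mem hσ hτ, rfl⟩
  · intro a _ b _ hab
    exact σ.injective hab
  · intro t ht
    obtain ⟨τ, hτ, rfl⟩ := mem_orb.1 ht
    refine ⟨(σ⁻¹ * τ) θ, mem_orb.2 ⟨σ⁻¹ * τ, H.mul_mem (H.inv_mem hσ) hτ, rfl⟩, ?_⟩
    rw [← AlgEquiv.mul_apply, mul_inv_cancel_left]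
  · intro t _
    rfl

theorem tE_mov [FiniteDimensional F N] (h : IsTheta v R N hR θ) (H : Subgroup (N ≃ₐ[F] N))
    {σ : N ≃ₐ[F] N} (hσ : ∀ η ∈ H, σ * η ∉ DP v R N hR) : VPos v ((σ (tE θ H) : N) : Ω) := by
  classical
  unfold tE
  rw [_root_.map_sum]
  have : ∀ s : Finset N, s ⊆ orb θ H → VPos v ((∑ t ∈ s, σ t : N) : Ω) := by
    intro s
    induction s using Finset.induction_on with
    | empty => intro _; simpa using VPos.zero
    | insert t s ht ih =>
      intro hs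
      rw [Finset.sum_insert ht, AddMemClass.coe_add]
      refine VPos.add ?_ (ih ((Finset.subset_insert t s).trans hs))
      obtain ⟨η, hη, rfl⟩ := mem_orb.1 (hs (Finset.mem_insert_self t s))
      rw [← AlgEquiv.mul_apply]
      exact h.mov _ (hσ η hη)
  exact this _ (Finset.Subset.refl _)

end IsTheta

/-- Z1d: an element of `CN` fixed by `H` is a quotient of integral elements fixed by `H`. -/
theorem CN_frac_H (h : Ctx0 k v) [FiniteDimensional F N] (hR : NRing v F R)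
    (H : Subgroup (N ≃ₐ[F] N)) {a : N} (ha : (a : Ω) ∈ CN v R N) (haf : ∀ σ ∈ H, σ a = a) :
    ∃ s t : N, IsIntegral R (s : Ω) ∧ IsIntegral R (t : Ω) ∧ (∀ σ ∈ H, σ s = s) ∧
      (∀ σ ∈ H, σ t = t) ∧ (t : Ω) ≠ 0 ∧ v (t : Ω) = 0 ∧ a = s / t := by
  classical
  have hfin : Fintype (N ≃ₐ[F] N) := Fintype.ofFinite _
  obtain ⟨θ, hθ⟩ := exists_isTheta (N := N) h hR
  obtain ⟨s, t, hs, ht, -, htf, ht0, ht1, hst⟩ := CN_frac hR H ha fun σ hσ => haf σ hσ.2
  have htN : t ≠ 0 := by rintro rfl; exact ht0 rfl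
  have hta : t * a = s := by rw [hst]; field_simp
  set O : Finset (N × N) :=
    (Finset.univ.filter fun σ : N ≃ₐ[F] N => σ ∈ H).image fun σ => (σ θ, σ t) with hO
  have hmemO : ∀ x : N × N, x ∈ O ↔ ∃ σ ∈ H, (σ θ, σ t) = x := by
    intro x
    rw [hO, Finset.mem_image]
    simp only [Finset.mem_filter, Finset.mem_univ, true_and]
  have h0O : (θ, t) ∈ O := (hmemO _).2 ⟨1, H.one_mem, rfl⟩
  set T : N := ∑ x ∈ O, x.1 * x.2 with hT
  have hTint : IsIntegral R (T : Ω) := by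
    rw [hT]
    push_cast
    refine IsIntegral.sum _ fun x hx => ?_
    obtain ⟨σ, -, rfl⟩ := (hmemO x).1 hx
    exact (int_map hR.frac.1 σ hθ.int).mul (int_map hR.frac.1 σ ht)
  have hTa : IsIntegral R ((T * a : N) : Ω) := by
    rw [hT, Finset.sum_mul]
    push_cast
    refine IsIntegral.sum _ fun x hx => ?_
    obtain ⟨σ, hσ, rfl⟩ := (hmemO x).1 hx
    have e : ((σ θ : N) : Ω) * ((σ t : N) : Ω) * (a : Ω) =
        ((σ θ : N) : Ω) * ((σ s : N) : Ω) := by
      rw [← hta, _root_.map_mul, haf σ hσ]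
      push_cast
      ring
    rw [e]
    exact (int_map hR.frac.1 σ hθ.int).mul (int_map hR.frac.1 σ hs)
  have hTf : ∀ σ ∈ H, σ T = T := by
    intro σ hσ
    rw [hT, _root_.map_sum]
    refine Finset.sum_bij (fun x _ => (σ x.1, σ x.2)) ?_ ?_ ?_ ?_
    · intro x hx
      obtain ⟨ρ, hρ, rfl⟩ := (hmemO x).1 hx
      exact (hmemO _).2 ⟨σ * ρ, H.mul_mem hσ hρ, rfl⟩
    · intro x _ y _ hxy
      rw [Prod.mk.injEq] at hxy
      exact Prod.ext (σ.injective hxy.1) (σ.injective hxy.2)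
    · intro x hx
      obtain ⟨ρ, hρ, rfl⟩ := (hmemO x).1 hx
      refine ⟨((σ⁻¹ * ρ) θ, (σ⁻¹ * ρ) t),
        (hmemO _).2 ⟨σ⁻¹ * ρ, H.mul_mem (H.inv_mem hσ) hρ, rfl⟩, ?_⟩
      have e : ∀ z : N, σ ((σ⁻¹ * ρ) z) = ρ z := fun z => by
        rw [← AlgEquiv.mul_apply, mul_inv_cancel_left]
      rw [e, e]
    · intro x _
      exact _root_.map_mul σ _ _
  have hTval : (T : Ω) ≠ 0 ∧ v (T : Ω) = 0 := by
    rw [hT, ← Finset.add_sum_erase O _ h0O]
    push_cast
    refine val_add_sum _ _ (mul_ne_zero hθ.val.1 ht0)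
      (by rw [v.map_mul hθ.val.1 ht0, hθ.val.2, ht1, add_zero]) fun x hx => ?_
    rw [Finset.mem_erase] at hx
    obtain ⟨σ, hσ, rfl⟩ := (hmemO x).1 hx.2
    refine VPos.mul (hθ.mov σ fun hD => hx.1 ?_) (int_ge hR.nonneg (int_map hR.frac.1 σ ht))
    rw [hθ.fix σ hD, htf σ hD]
  have hT0 : T ≠ 0 := fun h0 => hTval.1 (congrArg Subtype.val h0)
  refine ⟨T * a, T, hTa, hTint, fun σ hσ => by rw [_root_.map_mul, hTf σ hσ, haf σ hσ], hTf,
    hTval.1, hTval.2, by field_simp⟩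

/-- Z1d: an element of positive value of `CN` fixed by `H` is nilpotent modulo `m_R C`. -/
theorem exists_pow_mem (h : Ctx0 k v) [FiniteDimensional F N] [IsGalois F N]
    (hR : NRing v F R) (H : Subgroup (N ≃ₐ[F] N)) {a : N} (ha : (a : Ω) ∈ CN v R N)
    (haf : ∀ σ ∈ H, σ a = a) (hv : VPos v (a : Ω)) :
    ∃ d : ℕ, 0 < d ∧ ∃ c b : ℕ → Ω, (∀ i, c i ∈ R ∧ VPos v (c i)) ∧
      (∀ i, b i ∈ CN v R N ∧ b i ∈ fixO F N H) ∧
      (a : Ω) ^ d = ∑ i ∈ Finset.range d, c i * b i := by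
  obtain ⟨θ, hθ⟩ := exists_isTheta (N := N) h hR
  obtain ⟨s, t, hs, ht, hsf, htf, ht0, ht1, hst⟩ := CN_frac_H h hR H ha haf
  have htN : t ≠ 0 := by rintro rfl; exact ht0 rfl
  have hsv : VPos v (s : Ω) := by
    have e : (s : Ω) = (a : Ω) * (t : Ω) := by
      rw [hst]
      push_cast
      rw [div_mul_cancel₀ _ ht0]
    rw [e]
    exact hv.mul (int_ge hR.nonneg ht)
  have hE := hθ.tE_val H
  have hE0 : tE θ H ≠ 0 := fun h0 => hE.1 (congrArg Subtype.val h0)
  set n : N := s * tE θ H with hn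
  have hnint : IsIntegral R (n : Ω) := by
    rw [hn, MulMemClass.coe_mul]; exact hs.mul (hθ.tE_int H)
  obtain ⟨d, hd, c, hc, hcn⟩ := pow_mem_of_all hR hnint fun σ => by
    rw [hn, _root_.map_mul, MulMemClass.coe_mul]
    by_cases hσ : ∀ η ∈ H, σ * η ∉ DP v R N hR.frac.1
    · exact VPos.mul' (int_ge hR.nonneg (int_map hR.frac.1 σ hs)) (hθ.tE_mov H hσ)
    · push Not at hσ
      obtain ⟨η, hη, hση⟩ := hσ
      refine VPos.mul ?_ (int_ge hR.nonneg (int_map hR.frac.1 σ (hθ.tE_int H)))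
      have e : σ s = (σ * η) s := by rw [AlgEquiv.mul_apply, hsf η hη]
      rw [e]
      exact (hση s hs).1 hsv
  set w : N := t * tE θ H with hw
  have hw0 : (w : Ω) ≠ 0 ∧ v (w : Ω) = 0 := by
    rw [hw, MulMemClass.coe_mul]
    exact ⟨mul_ne_zero ht0 hE.1, by rw [v.map_mul ht0 hE.1, ht1, hE.2, add_zero]⟩
  have hwmem : (w : Ω)⁻¹ ∈ CN v R N := by
    refine CN_inv (intN_le_CN ⟨w.2, ?_⟩) hw0.1 hw0.2
    rw [hw, MulMemClass.coe_mul]
    exact ht.mul (hθ.tE_int H)
  have hwf : ∀ σ ∈ H, σ w = w := fun σ hσ => by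
    rw [hw, _root_.map_mul, htf σ hσ, IsTheta.tE_fix H hσ]
  have hnf : ∀ σ ∈ H, σ n = n := fun σ hσ => by
    rw [hn, _root_.map_mul, hsf σ hσ, IsTheta.tE_fix H hσ]
  have hanw : (a : Ω) = (n : Ω) / (w : Ω) := by
    have : a = n / w := by
      rw [hst, hn, hw, mul_div_mul_right _ _ hE0]
    rw [this]
    push_cast
    rfl
  refine ⟨d, hd, c, fun i => (n : Ω) ^ i * ((w : Ω)⁻¹) ^ d, hc, fun i => ⟨?_, ?_⟩, ?_⟩
  · exact mul_mem (pow_mem (intN_le_CN ⟨n.2, hnint⟩) i) (pow_mem hwmem d)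
  · have hn' : (n : Ω) ∈ fixO F N H := (mem_fixO F N H _).2 ⟨n, rfl, hnf⟩
    have hw' : (w : Ω) ∈ fixO F N H := (mem_fixO F N H _).2 ⟨w, rfl, hwf⟩
    exact mul_mem (pow_mem hn' i) (pow_mem (inv_mem hw') d)
  · rw [hanw, div_eq_mul_inv, mul_pow, hcn, Finset.sum_mul]
    refine Finset.sum_congr rfl fun i _ => ?_
    ring

end Pool.Agent.ALLZ
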