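import Pool.Agent.Lib.ALL_h66.Z1d

/-! # PROJECT ALL, block Z: powers of `θ` -/

set_option autoImplicit false

open Polynomial

namespace Pool.Agent.ALLZ

open Pool.Agent.H15JM (RVal)
open Pool.Agent.LU1 (VPos locv FracIs fixO mem_fixO val_add_vpos)
open Pool.Agent.D2 (Ctx0)

universe u

variable {k Ω : Type u} [Field k] [Field Ω] [Algebra k Ω] {v : RVal Ω}
variable {R : Subalgebra k Ω} {F : IntermediateField k Ω} {N : IntermediateField F Ω}

/-- Powers of `θ` have the same properties. -/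
theorem IsTheta.pow {hR : ∀ f ∈ R, f ∈ F} (hv : ∀ f ∈ R, v.Ge 0 f) {θ : N}
    (h : IsTheta v R N hR θ) {m : ℕ} (hm : 0 < m) : IsTheta v R N hR (θ ^ m) := by
  obtain ⟨j, rfl⟩ : ∃ j, m = j + 1 := ⟨m - 1, by omega⟩
  refine ⟨?_, ?_, ?_, ?_⟩
  · push_cast
    exact h.int.pow _
  · intro σ hσ
    rw [_root_.map_pow, h.fix σ hσ]
  · have e : ((θ ^ (j + 1) : N) : Ω) - 1 =
        ((θ : Ω) - 1) * ∑ i ∈ Finset.range (j + 1), (θ : Ω) ^ i := by
      push_cast
      rw [mul_comm, geom_sum_mul]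
    rw [e]
    exact h.one.mul (int_ge hv (IsIntegral.sum _ fun i _ => h.int.pow i))
  · intro σ hσ
    rw [_root_.map_pow]
    push_cast
    rw [pow_succ]
    exact VPos.mul' (int_ge hv ((int_map hR σ h.int).pow j)) (h.mov σ hσ)

end Pool.Agent.ALLZ
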